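import Pool.Agent.H95.NV.Targets3
import Pool.Agent.H98.CM4.EMB

/-!
# NVK, part A: basic facts for the sums over the discriminants
-/

set_option autoImplicit false

open MeasureTheory Set Filter NumberField
open scoped Real nonZeroDivisors

namespace Pool.Agent.H95.NV

open Pool.Agent.H65.CM4 (Pl rv nm dk dg V2 Fo)
open Pool.Agent.H61.NVK (ci cr)
open Pool.Agent.H89.NV (PrI np nS idS ni q4 Dis Fnd good bD Rs CK em tp sd TrK prp PM qN dR kf GW)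

variable {k : Type} [Field k] [NumberField k] [IsTotallyReal k]

theorem nmp {I : Ideal (𝓞 k)} (hI : I ≠ ⊥) : 0 < nm I :=
  lt_of_lt_of_le one_pos ((Pool.Agent.H98.CM4.pf_EMB k).2.2.2.2.2.2.2.2.2.2.1 I hI).1

omit [IsTotallyReal k] in
theorem ci_ne (c : ClassGroup (𝓞 k)) : ci c ≠ ⊥ := by
  unfold ci
  exact mem_nonZeroDivisors_iff_ne_zero.1 (cr c).2

theorem cardPl : Fintype.card (Pl k) = dg k := (Pool.Agent.H98.CM4.pf_EMB k).1

theorem dgp : 0 < dg k := (Pool.Agent.H98.CM4.pf_EMB k).2.1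

theorem dkp : (0 : ℝ) < dk k := by exact_mod_cast (Pool.Agent.H98.CM4.pf_EMB k).2.2.1

/-- the scale -/
noncomputable def Tf (k : Type) [Field k] [NumberField k] (f : Ideal (𝓞 k)) (X : ℝ) : ℝ :=
  (X * nm f ^ 2 / (dk k : ℝ) ^ 2) ^ (1 / (dg k : ℝ))

theorem Tf_pos {f : Ideal (𝓞 k)} (hf : f ≠ ⊥) {X : ℝ} (hX : 0 < X) : 0 < Tf k f X := by
  unfold Tf
  have := nmp hf
  have := dkp (k := k)
  positivity

theorem Tf_pow {f : Ideal (𝓞 k)} (hf : f ≠ ⊥) {X : ℝ} (hX : 0 < X) :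
    Tf k f X ^ dg k = X * nm f ^ 2 / (dk k : ℝ) ^ 2 := by
  unfold Tf
  have h1 := nmp hf
  have h2 := dkp (k := k)
  have h3 := dgp (k := k)
  rw [← Real.rpow_natCast, ← Real.rpow_mul (by positivity)]
  rw [one_div, inv_mul_cancel₀ (by exact_mod_cast h3.ne'), Real.rpow_one]

theorem prod_div (u : Pl k → ℝ) (T : ℝ) : ∏ v, u v / T = (∏ v, u v) / T ^ dg k := by
  rw [Finset.prod_div_distrib, Finset.prod_const, Finset.card_univ, cardPl]

theorem dsz_eq {f : Ideal (𝓞 k)} (hf : f ≠ ⊥) {X : ℝ} (hX : 0 < X) (D : 𝓞 k) :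
    ∏ v, em D v / Tf k f X = dsz k f D / X := by
  have h1 := nmp hf
  have h2 := dkp (k := k)
  rw [prod_div, Tf_pow hf hX]
  unfold dsz Pool.Agent.H89.NV.em
  field_simp

theorem psi_eq {Ψ : (Pl k → ℝ) → ℝ} (hΨ : PU k Ψ) (u : Pl k → ℝ) {T : ℝ} (hT : 0 < T) :
    Ψ (fun v => u v / T) = Ψ u := by
  have h := hΨ.homg u T⁻¹ (inv_pos.2 hT)
  rw [← h]
  congr 1
  funext v
  rw [div_eq_inv_mul]

theorem gw_tp {η : ℝ} {G : (Pl k → ℝ) → ℝ} (h : GW η G) {T : ℝ} (hT : 0 < T) {D : 𝓞 k}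
    (hD : G (fun v => em D v / T) ≠ 0) : tp D := by
  intro v
  by_contra h1
  refine hD (h.supp _ ⟨v, fun h2 => h1 ?_⟩)
  have h3 : 0 < em D v / T := lt_of_lt_of_le h.pos h2.1
  have h4 := (div_pos_iff_of_pos_right hT).1 h3
  exact h4

open Classical in
theorem mul_term {Ψ : (Pl k → ℝ) → ℝ} (hΨ : PU k Ψ) {w : ℝ → ℝ} {η : ℝ}
    (hG : GW (k := k) η (fun u => w (∏ v, u v) * Ψ u)) {X : ℝ} (hX : 0 < X)
    (c : ClassGroup (𝓞 k)) (D : 𝓞 k) :
    (if Fnd (ci c) D then (fun u : Pl k → ℝ => w (∏ v, u v) * Ψ u)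
      (fun v => em D v / Tf k (ci c) X) else 0) = mul k Ψ (c, D) * w (dsz k (ci c) D / X) := by
  have hT := Tf_pos (ci_ne c) hX
  unfold mul
  by_cases h1 : Fnd (ci c) D
  · rw [if_pos h1]
    by_cases h2 : tp D
    · rw [if_pos ⟨h2, h1⟩]
      dsimp only
      rw [dsz_eq (ci_ne c) hX, psi_eq hΨ _ hT, mul_comm]
    · rw [if_neg (fun h => h2 h.1), zero_mul]
      by_contra h3
      exact h2 (gw_tp hG hT h3)
  · rw [if_neg h1, if_neg (fun h => h1 h.2), zero_mul]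

theorem fsup (hFSP : T_FSP) {Ψ : (Pl k → ℝ) → ℝ} (hΨ : PU k Ψ) {w : ℝ → ℝ} {α : ℝ}
    (hw : ∀ x, x ∉ Icc α (1 / α) → w x = 0) {X : ℝ} (hX : 0 < X)
    (F : ClassGroup (𝓞 k) × 𝓞 k → ℝ)
    (hF : ∀ x, F x ≠ 0 → mul k Ψ x * w (dsz k (ci x.1) x.2 / X) ≠ 0) :
    (Function.support F).Finite := by
  refine ((hFSP k Ψ hΨ).2 (X * (1 / α))).subset fun x hx => ?_
  have h := hF x hx
  refine ⟨left_ne_zero_of_mul h, ?_⟩
  have h1 := right_ne_zero_of_mul h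
  by_contra h2
  refine h1 (hw _ fun h3 => h2 ?_)
  have := h3.2
  rw [div_le_iff₀ hX] at this
  linarith [mul_comm X (1 / α)]

omit [IsTotallyReal k] in
theorem tsum_cl (F : ClassGroup (𝓞 k) × 𝓞 k → ℝ) (hF : (Function.support F).Finite) :
    ∑' x, F x = ∑ c : ClassGroup (𝓞 k), ∑' D : 𝓞 k, F (c, D) := by
  have hs : Summable F := summable_of_hasFiniteSupport hF
  rw [hs.tsum_prod, tsum_fintype]

omit [NumberField k] in
theorem abs_rv (v : Pl k) (x : k) : |rv v x| = v x := by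
  unfold Pool.Agent.H65.CM4.rv
  rw [← Real.norm_eq_abs]
  exact InfinitePlace.norm_embedding_of_isReal (IsTotallyReal.isReal v) x

theorem fin_box (B : ℝ) : {D : 𝓞 k | ∀ v : Pl k, |em D v| ≤ B}.Finite := by
  have h := NumberField.Embeddings.finite_of_norm_le k ℂ B
  refine Set.Finite.of_finite_image (f := fun D : 𝓞 k => (D : k)) (h.subset ?_)
    (fun x _ y _ hxy => RingOfIntegers.ext hxy)
  rintro _ ⟨D, hD, rfl⟩
  refine ⟨RingOfIntegers.isIntegral_coe D, fun φ => ?_⟩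
  have h1 := hD (InfinitePlace.mk φ)
  have h2 : |em D (InfinitePlace.mk φ)| = (InfinitePlace.mk φ) (D : k) := abs_rv _ _
  rw [h2, InfinitePlace.apply] at h1
  exact h1

theorem gw_fin {η : ℝ} {G : (Pl k → ℝ) → ℝ} (h : GW η G) {T : ℝ} (hT : 0 < T) :
    {D : 𝓞 k | G (fun v => em D v / T) ≠ 0}.Finite := by
  refine (fin_box (k := k) (T * (1 / η))).subset fun D hD v => ?_
  by_contra h1
  refine hD (h.supp _ ⟨v, fun h2 => h1 ?_⟩)
  have h3 : 0 < em D v / T := lt_of_lt_of_le h.pos h2.1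
  have h4 := (div_pos_iff_of_pos_right hT).1 h3
  have h5 := (div_le_iff₀ hT).1 h2.2
  rw [abs_of_pos h4]
  linarith [mul_comm T (1 / η)]

omit [IsTotallyReal k] in
theorem gw_cs {η : ℝ} {G : (Pl k → ℝ) → ℝ} (h : GW η G) : HasCompactSupport G := by
  refine HasCompactSupport.intro (K := Icc (fun _ => η) (fun _ => 1 / η)) isCompact_Icc ?_
  intro u hu
  refine h.supp u ?_
  by_contra h1
  push Not at h1
  exact hu ⟨fun v => (h1 v).1, fun v => (h1 v).2⟩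

theorem em_sq_prod (ε : (𝓞 k)ˣ) : ∏ v, em ((ε : 𝓞 k) ^ 2) v = 1 := by
  have h := (Pool.Agent.H98.CM4.pf_EMB k).2.2.2.2.2.2.2.1 ε
  have h1 : ∏ v, em ((ε : 𝓞 k) ^ 2) v = (∏ v : Pl k, |rv v ((ε : 𝓞 k) : k)|) ^ 2 := by
    rw [← Finset.prod_pow]
    refine Finset.prod_congr rfl fun v _ => ?_
    rw [sq_abs, ← map_pow]
    rfl
  rw [h1]
  have h2 : ∏ v : Pl k, |rv v ((ε : 𝓞 k) : k)| = 1 := h
  rw [h2, one_pow]

theorem G_pos {Ψ : (Pl k → ℝ) → ℝ} (hΨ : PU k Ψ) {w : ℝ → ℝ} (hw : SW w) {η : ℝ}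
    (hG : GW (k := k) η (fun u => w (∏ v, u v) * Ψ u)) :
    0 < ∫ u : Pl k → ℝ, w (∏ v, u v) * Ψ u := by
  obtain ⟨x, hx⟩ := hw.pos
  obtain ⟨α, hα, hs⟩ := hw.supp
  have hx0 : 0 < x := by
    by_contra h
    have : x ∉ Icc α (1 / α) := fun h' => h (lt_of_lt_of_le hα h'.1)
    rw [hs x this] at hx
    exact lt_irrefl _ hx
  have hn := dgp (k := k)
  obtain ⟨s, hs1, hs2⟩ := hΨ.sum (fun _ => x ^ (1 / (dg k : ℝ))) (fun _ => by positivity)
  have hne : s.Nonempty := by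
    rw [Finset.nonempty_iff_ne_empty]
    rintro rfl
    rw [Finset.sum_empty] at hs2
    exact zero_ne_one hs2
  obtain ⟨y, hy⟩ := hne
  obtain ⟨⟨ε, rfl⟩, hy2⟩ := (hs1 _).1 hy
  refine Continuous.integral_pos_of_hasCompactSupport_nonneg_nonzero
    (x := fun v => em ((ε : 𝓞 k) ^ 2) v * x ^ (1 / (dg k : ℝ))) hG.smooth.continuous (gw_cs hG)
    (fun u => mul_nonneg (hw.nonneg _) (hΨ.unit u).1) ?_
  refine mul_ne_zero ?_ hy2
  rw [Finset.prod_mul_distrib, em_sq_prod, one_mul, Finset.prod_const, Finset.card_univ, cardPl,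
    ← Real.rpow_natCast, ← Real.rpow_mul hx0.le, one_div,
    inv_mul_cancel₀ (by exact_mod_cast hn.ne'), Real.rpow_one]
  exact hx.ne'

theorem Tf_tendsto {f : Ideal (𝓞 k)} (hf : f ≠ ⊥) : Tendsto (Tf k f) atTop atTop := by
  unfold Tf
  have h1 := nmp hf
  have h2 := dkp (k := k)
  have h3 := dgp (k := k)
  refine (tendsto_rpow_atTop (y := 1 / (dg k : ℝ)) (by positivity)).comp ?_
  have : (fun X : ℝ => X * nm f ^ 2 / (dk k : ℝ) ^ 2) =
      fun X : ℝ => X * (nm f ^ 2 / (dk k : ℝ) ^ 2) := by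
    funext X
    ring
  rw [this]
  exact tendsto_id.atTop_mul_const (by positivity)

theorem kf_eq {f : Ideal (𝓞 k)} (hf : f ≠ ⊥) {X : ℝ} (hX : 0 < X) :
    Tf k f X ^ dg k * kf f = 1 / (Real.sqrt (dk k) * (dk k : ℝ) ^ 2) * X := by
  rw [Tf_pow hf hX]
  have h1 := nmp hf
  have h2 := dkp (k := k)
  have h3 : 0 < Real.sqrt (dk k) := Real.sqrt_pos.2 h2
  unfold Pool.Agent.H89.NV.kf
  field_simp

end Pool.Agent.H95.NV
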