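import Pool.Agent.H95.NV.AllB
import Pool.Agent.H61.NVK.AsmE
import Pool.Agent.H61.NVE.VCK
import Pool.Agent.H91.NV.AsmL
import Pool.Agent.H89.NVK.AsmU
import Pool.Agent.H23.NVK.AsmN
import Pool.Agent.H65.NV.AsmP

/-!
# The proportion 19/27 over every totally real field: assembly of all parts
-/

set_option autoImplicit false

open NumberField

namespace Pool.Agent.H95.NV

open Pool.Agent.H61.NVK

/-- part U -/
theorem z_U (k : Type) [Field k] [NumberField k] [IsTotallyReal k] : Pool.Agent.H89.NVK.ResU k :=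
  Pool.Agent.H89.NVK.partU e_EBD e_ZFE e_VKF k

/-- part L -/
theorem z_L (k : Type) [Field k] [NumberField k] [IsTotallyReal k] : Pool.Agent.H91.NV.ResL k :=
  Pool.Agent.H91.NV.partL k (z_U k).rsb (z_U k).idl (z_U k).bmd (z_U k).trv (z_U k).fib (z_U k).pz1

/-- (AVG) -/
theorem z_AVG (k : Type) [Field k] [NumberField k] [IsTotallyReal k] :
    Pool.Agent.H89.NV.T_AVG k :=
  Pool.Agent.H65.NV.p_AVG k (z_U k).rsb (z_U k).idl e_DER e_ZCB e_VKF e_BSU (z_L k).lc (z_L k).lb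

/-- (AFM) -/
theorem z_AFM (k : Type) [Field k] [NumberField k] [IsTotallyReal k] :
    Pool.Agent.H89.NV.T_AFM k :=
  Pool.Agent.H65.NV.p_AFM k (z_U k).rsb e_LND e_DER e_ZCB e_VKF e_BSU

/-- the parts M and F -/
theorem z_MF (k : Type) [Field k] [NumberField k] [IsTotallyReal k] :
    Pool.Agent.H89.NV.T_SM2 k ∧ Pool.Agent.H89.NV.T_FM1 k ∧ Pool.Agent.H89.NV.T_CRR k :=
  Pool.Agent.H23.NVK.Asm.part_MF (Pool.Agent.H61.NVE_VCK.pf_VCK e_VKF)
    (fun k _ _ _ => (z_L k).nel) k (z_AVG k) (z_AFM k) (z_L k).wdn (z_L k).ufc (z_L k).fmc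

/-- the theorem, without the irreducibility over `ℚ` -/
theorem fnl : T_FNL :=
  partA (fun k _ _ _ => (z_U k).unf) (fun k _ _ _ => (z_U k).aut) (fun k _ _ _ => i_EPS k)
    (fun k _ _ _ => (z_MF k).1) (fun k _ _ _ => (z_MF k).2.1)
    (fun k _ _ _ => Pool.Agent.H65.NV.p_NFD k e_LND) (fun k _ _ _ => (z_MF k).2.2)
    (fun k _ _ _ => Pool.Agent.H65.NV.p_CNT k (z_U k).rsb e_LND)
    (fun k _ _ _ => Pool.Agent.H65.NV.p_PUN k)

/-- the theorem, with the irreducibility over `ℚ` -/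
theorem fn2 : T_FN2 :=
  partB (fun k _ _ _ => (z_U k).unf) (fun k _ _ _ => (z_U k).aut) (fun k _ _ _ => i_EPS k)
    (fun k _ _ _ => (z_MF k).1) (fun k _ _ _ => (z_MF k).2.1)
    (fun k _ _ _ => Pool.Agent.H65.NV.p_NFD k e_LND) (fun k _ _ _ => (z_MF k).2.2)
    (fun k _ _ _ => Pool.Agent.H65.NV.p_CNT k (z_U k).rsb e_LND)
    (fun k _ _ _ => Pool.Agent.H65.NV.p_PUN k)

end Pool.Agent.H95.NV
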