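import Pool.Agent.H95.NV.Targets3

/-!
# NVK, part A: (FNA), the assembly of the theorem
-/

set_option autoImplicit false

open MeasureTheory Set Filter NumberField
open scoped Real nonZeroDivisors

namespace Pool.Agent.H95.NV

open Pool.Agent.H61.NVK (ci)
open Pool.Agent.H89.NV (CK prp)

theorem pf_FNA (hPFX : T_PFX) (hPFC : T_PFC) (hFSP : T_FSP) (hFAM : T_FAM) (hCLX : T_CLX)
    (hZS2 : T_ZS2) (hCKE : T_CKE) (hSMX : T_SMX) (hSHP : T_SHP) (hTAX : T_TAX) (hPRR : T_PRR) :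
    T_FNA := by
  classical
  intro k _ _ _ hUNF hAUT hPRO hSM2 hFM1 hNFD hCRR hCNT hPUN
  obtain ⟨Ψ, h1, h2, h3⟩ := hPUN
  have hPU : PU k Ψ := ⟨h1, fun u hu => (h2 u hu).1,
    fun u t ht => (h2 (fun _ => 1) (fun _ => one_pos)).2 u t ht, h3⟩
  obtain ⟨pf, τ, hb, hv⟩ := hPFX k
  have hPf : Pf k pf := hPFC k hPRO pf (fun D => ⟨(hb D).1, (hb D).2.1⟩)
    (fun D K _ _ _ h => (hv D K h).1)
  have hZ := hZS2 k hUNF hAUT (hCKE k)
  have hS := hSMX k hSM2 hFM1 hNFD hCRR hCNT hZ Ψ hPU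
  have hF := hFSP k Ψ hPU
  obtain ⟨⟨c, C, X₀, hc, hC, hgr⟩, hsh⟩ := hSHP (ClassGroup (𝓞 k) × 𝓞 k) (mul k Ψ)
    (fun x => dsz k (ci x.1) x.2) (fun x => pf x.2) (19 / 27) (by norm_num)
    (fun x => ⟨(hF.1 x).1, (hb x.2).1, (hb x.2).2.1, (hF.1 x).2⟩) hF.2
    (fun w hw ε hε => by
      obtain ⟨c, hc, X₀, h⟩ := hS w hw ε hε
      exact ⟨c, hc, X₀, fun X hX => h X hX pf hPf⟩)
  have key : ∀ (X : ℝ) (ι : Type) [Fintype ι] (K : ι → Type) [∀ i, Field (K i)]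
      [∀ i, NumberField (K i)] [∀ i, Algebra k (K i)], CL k X ι K →
      ∀ (p : 𝓞 k → ℝ) (pr : ι → ℝ), (∀ i (D : 𝓞 k) (_ : CK D (K i)), pr i = p D) →
      ∑ i, pr i = ∑' x : ClassGroup (𝓞 k) × 𝓞 k,
        if dsz k (ci x.1) x.2 ≤ X then mul k Ψ x * p x.2 else 0 := by
    intro X ι _ K _ _ _ hCL p pr hpr
    have h := hFAM k Ψ hPU X ι K hCL (fun x => if x ≤ X then 1 else 0) p pr
      (fun x hx => if_neg (not_le.2 hx)) hpr
    have e1 : ∑ i, pr i = ∑ i, (if |(discr (K i) : ℝ)| ≤ X then (1 : ℝ) else 0) * pr i := by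
      refine Finset.sum_congr rfl fun i _ => ?_
      rw [if_pos (hCL.le i), one_mul]
    rw [e1, h]
    refine tsum_congr fun x => ?_
    by_cases hx : dsz k (ci x.1) x.2 ≤ X
    · rw [if_pos hx, if_pos hx, mul_one]
    · rw [if_neg hx, if_neg hx, mul_zero, zero_mul]
  have cnt : ∀ (X : ℝ) (ι : Type) [Fintype ι] (K : ι → Type) [∀ i, Field (K i)]
      [∀ i, NumberField (K i)] [∀ i, Algebra k (K i)], CL k X ι K →
      (Fintype.card ι : ℝ) = ∑' x : ClassGroup (𝓞 k) × 𝓞 k,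
        if dsz k (ci x.1) x.2 ≤ X then mul k Ψ x else 0 := by
    intro X ι _ K _ _ _ hCL
    have h := key X ι K hCL (fun _ => 1) (fun _ => 1) (fun _ _ _ => rfl)
    rw [Finset.sum_const, Finset.card_univ, nsmul_eq_mul, mul_one] at h
    rw [h]
    refine tsum_congr fun x => ?_
    by_cases hx : dsz k (ci x.1) x.2 ≤ X
    · rw [if_pos hx, if_pos hx, mul_one]
    · rw [if_neg hx, if_neg hx]
  refine ⟨fun X => hCLX k Ψ hPU X, ⟨c, C, X₀, hc, hC, fun X hX ι _ K _ _ _ hCL => ?_⟩, ?_⟩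
  · rw [cnt X ι K hCL]
    exact hgr X hX
  intro ε hε
  obtain ⟨X₁, hX₁⟩ := hsh (ε / 2) (half_pos hε)
  obtain ⟨X₂, hX₂⟩ := hTAX k hCNT Ψ hPU C ⟨X₀, fun X hX => (hgr X hX).2⟩ τ
    (fun D => ⟨(hb D).2.2.1, (hb D).2.2.2⟩) (fun D K _ _ _ h => (hv D K h).2) (ε / 2 * c)
    (mul_pos (half_pos hε) hc)
  refine ⟨max X₀ (max X₁ X₂), fun X hX ι _ K _ _ _ hCL => ?_⟩
  have hx0 : X₀ ≤ X := le_trans (le_max_left _ _) hX
  have hx1 : X₁ ≤ X := le_trans (le_trans (le_max_left _ _) (le_max_right _ _)) hX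
  have hx2 : X₂ ≤ X := le_trans (le_trans (le_max_right _ _) (le_max_right _ _)) hX
  have a1 := hX₁ X hx1
  have a2 := hX₂ X hx2
  have a0 := (hgr X hx0).1
  have b1 := key X ι K hCL pf (fun i => prp k (K i)) (fun i D h => (hv D (K i) h).1)
  have b2 := key X ι K hCL τ (fun i => rcp k (K i)) (fun i D h => (hv D (K i) h).2)
  have b0 := cnt X ι K hCL
  have b3 : ∑ i, (prp k (K i) - rcp k (K i)) ≤ ∑ i, prN k (K i) := by
    refine Finset.sum_le_sum fun i _ => ?_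
    haveI := hCL.quad i
    exact hPRR k (K i)
  rw [Finset.sum_sub_distrib, b1, b2] at b3
  rw [b0]
  have e : ε / 2 * c * X ≤ ε / 2 * ∑' x : ClassGroup (𝓞 k) × 𝓞 k,
      (if dsz k (ci x.1) x.2 ≤ X then mul k Ψ x else 0) := by
    rw [mul_assoc]
    exact mul_le_mul_of_nonneg_left a0 (half_pos hε).le
  nlinarith [a1, a2, e, b3]

end Pool.Agent.H95.NV
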