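import Pool.Agent.H95.NV.Lib

/-!
# NVK, part A: (NSX), few discriminants without small split primes
-/

set_option autoImplicit false

open MeasureTheory Set Filter NumberField
open scoped Real nonZeroDivisors

namespace Pool.Agent.H95.NV

open Pool.Agent.H65.CM4 (Pl rv nm dk dg V2 Fo)
open Pool.Agent.H61.NVK (ci cr)
open Pool.Agent.H89.NV (PrI np nS idS ni q4 Dis Fnd good bD Rs CK em tp sd TrK prp PM qN dR kf GW)

theorem dis_mem {k : Type} [Field k] [NumberField k] {f : Ideal (𝓞 k)} {D : 𝓞 k}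
    (h : Dis f D) : D ∈ f ^ 2 := by
  obtain ⟨b, hb, h1⟩ := h
  have h2 : b ^ 2 + D ∈ f ^ 2 := Ideal.mul_le_right h1
  have h3 : b ^ 2 ∈ f ^ 2 := Ideal.pow_mem_pow hb 2
  have h4 : D = (b ^ 2 + D) - b ^ 2 := by ring
  rw [h4]
  exact Ideal.sub_mem _ h2 h3

theorem idS_ne {k : Type} [Field k] [NumberField k] (Q : Finset (PrI k)) : idS Q ≠ ⊥ := by
  intro h
  have h0 : (∏ P ∈ Q, P.1 : Ideal (𝓞 k)) = 0 := h
  rw [Finset.prod_eq_zero_iff] at h0
  obtain ⟨P, -, h⟩ := h0
  exact P.2.2 h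

theorem nm_idS {k : Type} [Field k] [NumberField k] (Q : Finset (PrI k)) :
    nm (idS Q) = ∏ P ∈ Q, np P := by
  unfold Pool.Agent.H89.NV.idS Pool.Agent.H89.NV.np Pool.Agent.H65.CM4.nm
  rw [map_prod]
  push_cast
  rfl

theorem pf_NSX (hNSD : T_NSD) (hPIF : T_PIF) (hFSP : T_FSP) : T_NSX := by
  classical
  intro k _ _ _ hCNT Ψ hΨ w hw ε hε
  obtain ⟨α, hα, hsupp⟩ := hw.supp
  obtain ⟨η, hG⟩ := hΨ.gw w α hα hw.smooth hsupp
  have hG0 : ∀ u : Pl k → ℝ, 0 ≤ w (∏ v, u v) * Ψ u :=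
    fun u => mul_nonneg (hw.nonneg _) (hΨ.unit u).1
  have hV : 0 < ∫ u : Pl k → ℝ, w (∏ v, u v) * Ψ u := G_pos hΨ hw hG
  set V := ∫ u : Pl k → ℝ, w (∏ v, u v) * Ψ u with hVdef
  have hdk := dkp (k := k)
  have hsq : 0 < Real.sqrt (dk k) := Real.sqrt_pos.2 hdk
  set κ : ℝ := 1 / (Real.sqrt (dk k) * (dk k : ℝ) ^ 2) with hκ
  have hκ0 : 0 < κ := by positivity
  set h : ℝ := (Fintype.card (ClassGroup (𝓞 k)) : ℝ) with hh
  have hh0 : 0 < h := by
    rw [hh]
    exact_mod_cast Fintype.card_pos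
  set B : ℝ := ∑ c : ClassGroup (𝓞 k), nm (ci c) ^ 2 / (dk k : ℝ) ^ 2 with hB
  have hB0 : 0 < B := by
    refine Finset.sum_pos (fun c _ => ?_) Finset.univ_nonempty
    have := nmp (ci_ne c)
    positivity
  obtain ⟨m, hm⟩ := exists_pow_lt_of_lt_one (show 0 < ε / 2 / (h * κ * V) by positivity)
    (show (2 / 3 : ℝ) < 1 by norm_num)
  obtain ⟨Q, hQc, hQ⟩ := hPIF k m
  choose T₁ hT₁ using fun c : ClassGroup (𝓞 k) =>
    hCNT (ci c) (idS Q) _ η 1 (ε / 2 / B) (ci_ne c) (idS_ne Q) hG (by positivity)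
  have hev : ∀ᶠ X in atTop, ∀ c : ClassGroup (𝓞 k), T₁ c ≤ Tf k (ci c) X :=
    Filter.eventually_all.2 fun c => (Tf_tendsto (ci_ne c)).eventually_ge_atTop _
  obtain ⟨X₀, hX₀⟩ := Filter.eventually_atTop.1 hev
  refine ⟨Q, fun P hP => (hQ P hP).1, max X₀ 1, fun X hX => ?_⟩
  have hX0 : 0 < X := lt_of_lt_of_le one_pos (le_trans (le_max_right _ _) hX)
  have hTT := hX₀ X (le_trans (le_max_left _ _) hX)
  have s1 := fsup hFSP hΨ hsupp hX0
    (fun x => if ∀ P ∈ Q, ¬ spl (ci x.1) P x.2 then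
      mul k Ψ x * w (dsz k (ci x.1) x.2 / X) else 0)
    (fun x hx => by
      split_ifs at hx with h1
      · exact hx
      · exact absurd rfl hx)
  rw [tsum_cl _ s1]
  have e : ∀ c : ClassGroup (𝓞 k), ∑' D : 𝓞 k, (if ∀ P ∈ Q, ¬ spl (ci c) P D then
        mul k Ψ (c, D) * w (dsz k (ci c) D / X) else 0) ≤
        κ * X * V * (2 / 3) ^ m + ε / 2 / B * (X * (nm (ci c) ^ 2 / (dk k : ℝ) ^ 2)) := by
    intro c
    obtain ⟨hN1, hN2⟩ := hNSD k (ci c) Q (ci_ne c) (fun P hP => (hQ P hP).1)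
    have h1 := hT₁ c (Tf k (ci c) X) (hTT c)
      (fun D => if ∀ P ∈ Q, ¬ spl (ci c) P D then 1 else 0)
      (fun D => by
        split_ifs
        · norm_num
        · norm_num)
      (fun D y hy => by
        have h2 : (∀ P ∈ Q, ¬ spl (ci c) P (D + y)) ↔ ∀ P ∈ Q, ¬ spl (ci c) P D :=
          forall₂_congr fun P hP => not_congr (hN1 P hP D y hy)
        simp only [h2])
    have h2 := (abs_le.1 h1).2
    have hcard : ∑ x ∈ (Rs (idS Q * ci c ^ 2)).filter (fun x => x ∈ ci c ^ 2),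
        (if ∀ P ∈ Q, ¬ spl (ci c) P x then (1 : ℝ) else 0) = ∏ P ∈ Q, ((np P + 1) / 2) := by
      rw [← hN2, ← Finset.sum_filter, Finset.filter_filter, Finset.sum_const, nsmul_eq_mul, mul_one]
    have hmean : (∏ P ∈ Q, ((np P + 1) / 2)) / nm (idS Q) ≤ (2 / 3) ^ m := by
      rw [nm_idS, ← Finset.prod_div_distrib, ← hQc, ← Finset.prod_const]
      refine Finset.prod_le_prod (fun P hP => ?_) (fun P hP => ?_)
      · have := (hQ P hP).2
        positivity
      · have h3 := (hQ P hP).2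
        have h4 : 0 < np P := by linarith
        rw [div_div, div_le_iff₀ (by positivity)]
        linarith
    rw [hcard, mul_comm (kf (ci c)) _, kf_eq (ci_ne c) hX0, Tf_pow (ci_ne c) hX0] at h2
    have hT := Tf_pos (ci_ne c) hX0
    have f2 := gw_fin hG hT
    have h3 : ∑' D : 𝓞 k, (if ∀ P ∈ Q, ¬ spl (ci c) P D then
        mul k Ψ (c, D) * w (dsz k (ci c) D / X) else 0) ≤
        ∑' D : 𝓞 k, if D ∈ ci c ^ 2 then (if ∀ P ∈ Q, ¬ spl (ci c) P D then (1 : ℝ) else 0) *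
          (fun u : Pl k → ℝ => w (∏ v, u v) * Ψ u) (fun v => em D v / Tf k (ci c) X) else 0 := by
      refine Summable.tsum_le_tsum (fun D => ?_) ?_ ?_
      · by_cases h5 : ∀ P ∈ Q, ¬ spl (ci c) P D
        · rw [if_pos h5, if_pos h5, one_mul, ← mul_term hΨ hG hX0 c D]
          by_cases h4 : Fnd (ci c) D
          · rw [if_pos h4, if_pos (dis_mem h4.1)]
          · rw [if_neg h4]
            split_ifs
            · exact hG0 _
            · exact le_refl _
        · rw [if_neg h5, if_neg h5, zero_mul]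
          split_ifs <;> exact le_refl _
      · refine summable_of_hasFiniteSupport (f2.subset fun D hD => ?_)
        have h5 : (if ∀ P ∈ Q, ¬ spl (ci c) P D then
          mul k Ψ (c, D) * w (dsz k (ci c) D / X) else 0) ≠ 0 := hD
        split_ifs at h5 with h7
        · rw [← mul_term hΨ hG hX0 c D] at h5
          split_ifs at h5 with h6
          · exact h5
          · exact absurd rfl h5
        · exact absurd rfl h5
      · refine summable_of_hasFiniteSupport (f2.subset fun D hD => ?_)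
        have h5 : (if D ∈ ci c ^ 2 then (if ∀ P ∈ Q, ¬ spl (ci c) P D then (1 : ℝ) else 0) *
          (fun u : Pl k → ℝ => w (∏ v, u v) * Ψ u) (fun v => em D v / Tf k (ci c) X) else 0) ≠ 0 :=
          hD
        split_ifs at h5 with h6
        · exact right_ne_zero_of_mul h5
        · exact absurd (zero_mul _) h5
        · exact absurd rfl h5
    have h4 : X * nm (ci c) ^ 2 / (dk k : ℝ) ^ 2 = X * (nm (ci c) ^ 2 / (dk k : ℝ) ^ 2) := by
      ring
    rw [h4] at h2
    have h5 : κ * X * V * ((∏ P ∈ Q, ((np P + 1) / 2)) / nm (idS Q)) ≤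
        κ * X * V * (2 / 3) ^ m := mul_le_mul_of_nonneg_left hmean (by positivity)
    refine le_trans h3 ?_
    linarith [h2, h5]
  calc ∑ c : ClassGroup (𝓞 k), ∑' D : 𝓞 k, (if ∀ P ∈ Q, ¬ spl (ci c) P D then
        mul k Ψ (c, D) * w (dsz k (ci c) D / X) else 0)
      ≤ ∑ c : ClassGroup (𝓞 k),
        (κ * X * V * (2 / 3) ^ m + ε / 2 / B * (X * (nm (ci c) ^ 2 / (dk k : ℝ) ^ 2))) :=
        Finset.sum_le_sum fun c _ => e c
    _ = (h * κ * V) * (2 / 3) ^ m * X + ε / 2 * X := by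
        rw [Finset.sum_add_distrib, Finset.sum_const, Finset.card_univ, nsmul_eq_mul,
          ← Finset.mul_sum, ← Finset.mul_sum, ← hB]
        have : ε / 2 / B * (X * B) = ε / 2 * X := by
          field_simp
        rw [this]
        simp only [hh]
        ring
    _ ≤ ε * X := by
        have h6 := hm.le
        rw [le_div_iff₀ (by positivity)] at h6
        nlinarith [mul_le_mul_of_nonneg_right h6 hX0.le]

end Pool.Agent.H95.NV
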