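import Pool.Agent.H95.NV.Lib

/-!
# NVK, part A: (SMX), the proportion with smooth weights
-/

set_option autoImplicit false

open MeasureTheory Set Filter NumberField
open scoped Real nonZeroDivisors

namespace Pool.Agent.H95.NV

open Pool.Agent.H65.CM4 (Pl rv nm dk dg V2 Fo)
open Pool.Agent.H61.NVK (ci cr)
open Pool.Agent.H89.NV (PrI np nS idS ni q4 Dis Fnd good bD Rs CK em tp sd TrK prp PM qN dR kf GW)

theorem pf_SMX (hSMF : T_SMF) (hCGD : T_CGD) (hFSP : T_FSP) (hDRL : T_DRL) : T_SMX := by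
  classical
  intro k _ _ _ hSM2 hFM1 hNFD hCRR hCNT hZ Ψ hΨ w hw ε hε
  obtain ⟨α, hα, hsupp⟩ := hw.supp
  obtain ⟨η, hG⟩ := hΨ.gw w α hα hw.smooth hsupp
  have hG0 : ∀ u : Pl k → ℝ, 0 ≤ w (∏ v, u v) * Ψ u :=
    fun u => mul_nonneg (hw.nonneg _) (hΨ.unit u).1
  have hV : 0 < ∫ u : Pl k → ℝ, w (∏ v, u v) * Ψ u := G_pos hΨ hw hG
  set V := ∫ u : Pl k → ℝ, w (∏ v, u v) * Ψ u with hVdef
  choose R₀ hR₀ using fun c : ClassGroup (𝓞 k) =>
    hSMF k hSM2 hFM1 hNFD hCRR hZ (ci c) _ η ε (ci_ne c) hG hG0 hV hε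
  obtain ⟨R, hR⟩ := (Set.finite_range R₀).bddAbove
  choose T₀ hT₀ using fun c => hR₀ c R (hR ⟨c, rfl⟩)
  obtain ⟨d, hd, hdR⟩ := hDRL k
  have hδ : 0 < dR (PM k R) := lt_of_lt_of_le hd (hdR _)
  set δ := dR (PM k R) with hδdef
  have hdk := dkp (k := k)
  have hsq : 0 < Real.sqrt (dk k) := Real.sqrt_pos.2 hdk
  set κ : ℝ := 1 / (Real.sqrt (dk k) * (dk k : ℝ) ^ 2) with hκ
  have hκ0 : 0 < κ := by positivity
  set h : ℝ := (Fintype.card (ClassGroup (𝓞 k)) : ℝ) with hh
  have hh0 : 0 < h := by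
    rw [hh]
    exact_mod_cast Fintype.card_pos
  set c₀ : ℝ := h * κ * δ * V with hc₀
  have hc0 : 0 < c₀ := by positivity
  set B : ℝ := ∑ c : ClassGroup (𝓞 k), nm (ci c) ^ 2 / (dk k : ℝ) ^ 2 with hB
  have hB0 : 0 < B := by
    refine Finset.sum_pos (fun c _ => ?_) Finset.univ_nonempty
    have := nmp (ci_ne c)
    positivity
  choose T₁ hT₁ using fun c : ClassGroup (𝓞 k) =>
    hCGD k hCNT (ci c) (PM k R) _ η (ε * c₀ / B) (ci_ne c) hG (by positivity)
  have hev : ∀ᶠ X in atTop, ∀ c : ClassGroup (𝓞 k), T₀ c ≤ Tf k (ci c) X ∧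
      T₁ c ≤ Tf k (ci c) X := by
    refine Filter.eventually_all.2 fun c => ?_
    exact ((Tf_tendsto (ci_ne c)).eventually_ge_atTop _).and
      ((Tf_tendsto (ci_ne c)).eventually_ge_atTop _)
  obtain ⟨X₀, hX₀⟩ := Filter.eventually_atTop.1 hev
  refine ⟨c₀, hc0, max X₀ 1, fun X hX pf hpf => ?_⟩
  have hX0 : 0 < X := lt_of_lt_of_le one_pos (le_trans (le_max_right _ _) hX)
  have hTT := hX₀ X (le_trans (le_max_left _ _) hX)
  have s1 := fsup hFSP hΨ hsupp hX0
    (fun x => mul k Ψ x * w (dsz k (ci x.1) x.2 / X) * pf x.2)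
    (fun x hx => left_ne_zero_of_mul hx)
  have s2 := fsup hFSP hΨ hsupp hX0 (fun x => mul k Ψ x * w (dsz k (ci x.1) x.2 / X))
    (fun x hx => hx)
  rw [tsum_cl _ s1, tsum_cl _ s2]
  constructor
  · have e : ∀ c : ClassGroup (𝓞 k), (19 / 27 - ε) * (κ * X * δ * V) ≤
        ∑' D : 𝓞 k, mul k Ψ (c, D) * w (dsz k (ci c) D / X) * pf D := by
      intro c
      have h1 := hT₀ c (Tf k (ci c) X) (hTT c).1 pf hpf
      rw [kf_eq (ci_ne c) hX0] at h1
      refine le_trans h1 (le_of_eq (tsum_congr fun D => ?_))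
      rw [← mul_term hΨ hG hX0 c D]
      split_ifs
      · rfl
      · rw [zero_mul]
    calc (19 / 27 - ε) * (c₀ * X) = ∑ c : ClassGroup (𝓞 k), (19 / 27 - ε) * (κ * X * δ * V) := by
          rw [Finset.sum_const, Finset.card_univ, nsmul_eq_mul]
          simp only [hc₀, hh]
          ring
      _ ≤ _ := Finset.sum_le_sum fun c _ => e c
  · have e : ∀ c : ClassGroup (𝓞 k), ∑' D : 𝓞 k, mul k Ψ (c, D) * w (dsz k (ci c) D / X) ≤
        κ * X * δ * V + ε * c₀ / B * (X * (nm (ci c) ^ 2 / (dk k : ℝ) ^ 2)) := by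
      intro c
      have h1 := hT₁ c (Tf k (ci c) X) (hTT c).2
      have h2 := (abs_le.1 h1).2
      rw [kf_eq (ci_ne c) hX0, Tf_pow (ci_ne c) hX0] at h2
      have hT := Tf_pos (ci_ne c) hX0
      have f2 := gw_fin hG hT
      have h3 : ∑' D : 𝓞 k, mul k Ψ (c, D) * w (dsz k (ci c) D / X) ≤
          ∑' D : 𝓞 k, if good (ci c) (PM k R) D then
            (fun u : Pl k → ℝ => w (∏ v, u v) * Ψ u) (fun v => em D v / Tf k (ci c) X) else 0 := by
        refine Summable.tsum_le_tsum (fun D => ?_) ?_ ?_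
        · rw [← mul_term hΨ hG hX0 c D]
          by_cases h4 : Fnd (ci c) D
          · rw [if_pos h4, if_pos ⟨h4.1, fun P _ => h4.2 P⟩]
          · rw [if_neg h4]
            split_ifs
            · exact hG0 _
            · exact le_refl _
        · refine summable_of_hasFiniteSupport (f2.subset fun D hD => ?_)
          have h5 : (if Fnd (ci c) D then (fun u : Pl k → ℝ => w (∏ v, u v) * Ψ u)
            (fun v => em D v / Tf k (ci c) X) else 0) ≠ 0 := by
            rw [mul_term hΨ hG hX0 c D]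
            exact hD
          split_ifs at h5 with h6
          · exact h5
          · exact absurd rfl h5
        · refine summable_of_hasFiniteSupport (f2.subset fun D hD => ?_)
          have h5 : (if good (ci c) (PM k R) D then (fun u : Pl k → ℝ => w (∏ v, u v) * Ψ u)
            (fun v => em D v / Tf k (ci c) X) else 0) ≠ 0 := hD
          split_ifs at h5 with h6
          · exact h5
          · exact absurd rfl h5
      have h4 : X * nm (ci c) ^ 2 / (dk k : ℝ) ^ 2 = X * (nm (ci c) ^ 2 / (dk k : ℝ) ^ 2) := by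
        ring
      rw [h4] at h2
      have h2' : (∑' D : 𝓞 k, if good (ci c) (PM k R) D then
            (fun u : Pl k → ℝ => w (∏ v, u v) * Ψ u) (fun v => em D v / Tf k (ci c) X) else 0) ≤
          κ * X * δ * V + ε * c₀ / B * (X * (nm (ci c) ^ 2 / (dk k : ℝ) ^ 2)) := by
        linarith [h2]
      exact le_trans h3 h2'
    calc ∑ c : ClassGroup (𝓞 k), ∑' D : 𝓞 k, mul k Ψ (c, D) * w (dsz k (ci c) D / X)
        ≤ ∑ c : ClassGroup (𝓞 k),
          (κ * X * δ * V + ε * c₀ / B * (X * (nm (ci c) ^ 2 / (dk k : ℝ) ^ 2))) :=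
          Finset.sum_le_sum fun c _ => e c
      _ = (1 + ε) * (c₀ * X) := by
          rw [Finset.sum_add_distrib, Finset.sum_const, Finset.card_univ, nsmul_eq_mul,
            ← Finset.mul_sum, ← Finset.mul_sum, ← hB]
          have : ε * c₀ / B * (X * B) = ε * c₀ * X := by
            field_simp
          rw [this]
          simp only [hc₀, hh]
          ring

end Pool.Agent.H95.NV
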