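import Pool.Agent.H22.NV.BIJ
import Pool.Agent.H27.NV.BRA
import Pool.Agent.H94.NV.BRK
import Pool.Agent.H11.NV.CGD
import Pool.Agent.H11.NV.CHC
import Pool.Agent.H68.NV.CKE
import Pool.Agent.H6.NV.CLX
import Pool.Agent.H78.NV.COO
import Pool.Agent.H27.NV.CSQ
import Pool.Agent.H27.NV.DRL
import Pool.Agent.H74.NV.DSC
import Pool.Agent.H41.NV.EQV
import Pool.Agent.H20.NV.EXK
import Pool.Agent.H39.NV.FAM
import Pool.Agent.H57.NV.FDN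
import Pool.Agent.H11.NV.FMX
import Pool.Agent.H5.NV.FNV
import Pool.Agent.H34.NV.FSP
import Pool.Agent.H36.NV.FUN
import Pool.Agent.H21.NV.HEC
import Pool.Agent.H34.NV.HKC
import Pool.Agent.H93.NV.IDC
import Pool.Agent.H34.NV.IDN
import Pool.Agent.H75.NV.IDR
import Pool.Agent.H3.NV.IDX
import Pool.Agent.H34.NV.INQ
import Pool.Agent.H27.NV.ISO
import Pool.Agent.H27.NV.KDF
import Pool.Agent.H27.NV.KDM
import Pool.Agent.H27.NV.KDT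
import Pool.Agent.H99.NV.KDU
import Pool.Agent.H57.NV.KDX
import Pool.Agent.H6.NV.LFX
import Pool.Agent.H57.NV.NSD
import Pool.Agent.H22.NV.NUM
import Pool.Agent.H4.NV.NUP
import Pool.Agent.H3.NV.ORD
import Pool.Agent.H11.NV.PFC
import Pool.Agent.H54.NV.PFX
import Pool.Agent.H27.NV.PIF
import Pool.Agent.H6.NV.PRA
import Pool.Agent.H81.NV.PRR
import Pool.Agent.H75.NV.REP
import Pool.Agent.H6.NV.SHP
import Pool.Agent.H16.NV.SIJ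
import Pool.Agent.H4.NV.SMF
import Pool.Agent.H70.NV.SMV
import Pool.Agent.H6.NV.SPP
import Pool.Agent.H27.NV.TCX
import Pool.Agent.H11.NV.TRA
import Pool.Agent.H95.NV.VCL
import Pool.Agent.H34.NV.VKE
import Pool.Agent.H34.NV.ZS2
import Pool.Agent.H33.NV.ZSJ
import Pool.Agent.H6.NV.ZVN
import Pool.Agent.H95.NV.FNA
import Pool.Agent.H95.NV.NSX
import Pool.Agent.H95.NV.SMX
import Pool.Agent.H95.NV.TAX
import Pool.Agent.H31.CN.FinB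
import Pool.Agent.H31.CN.FinA
import Pool.Agent.H77.CM4.CNTP

/-!
# NVK, part A: the assembly of part A
-/

set_option autoImplicit false

open NumberField
open scoped nonZeroDivisors

namespace Pool.Agent.H95.NV

theorem a_REP : T_REP := Pool.Agent.H75.NV.pf_REP
theorem a_COO : T_COO := Pool.Agent.H78.NV.pf_COO
theorem a_FNV : T_FNV := Pool.Agent.H5.NV.pf_FNV
theorem a_EXK : T_EXK := Pool.Agent.H20.NV.pf_EXK
theorem a_TCX : T_TCX := Pool.Agent.H27.NV.pf_TCX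
theorem a_KDX : T_KDX := Pool.Agent.H57.NV.pf_KDX a_REP a_COO a_FNV
theorem a_KDU : T_KDU := Pool.Agent.H99.NV.pf_KDU a_REP a_COO a_FNV
theorem a_KDM : T_KDM := Pool.Agent.H27.NV.pf_KDM
theorem a_KDT : T_KDT := Pool.Agent.H27.NV.pf_KDT a_COO
theorem a_KDF : T_KDF := Pool.Agent.H27.NV.pf_KDF a_COO a_FNV
theorem a_FUN : T_FUN := Pool.Agent.H36.NV.pf_FUN a_REP a_COO a_FNV
theorem a_DSC : T_DSC := Pool.Agent.H74.NV.pf_DSC a_COO a_FNV a_TCX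
theorem a_SMV : T_SMV := Pool.Agent.H70.NV.pf_SMV a_COO a_DSC a_TCX Pool.Agent.H77.CM4.pf_NTP
theorem a_IDC : T_IDC := Pool.Agent.H93.NV.pf_IDC a_COO a_FNV
theorem a_IDR : T_IDR := Pool.Agent.H75.NV.pf_IDR a_COO a_FNV a_IDC
theorem a_IDN : T_IDN := Pool.Agent.H34.NV.pf_IDN a_COO a_IDC a_IDR
theorem a_IDX : T_IDX := Pool.Agent.H3.NV.pf_IDX a_COO a_FNV
theorem a_HEC : T_HEC := Pool.Agent.H21.NV.pf_HEC a_IDC a_IDR a_IDN a_IDX
theorem a_HKC : T_HKC := Pool.Agent.H34.NV.pf_HKC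
theorem a_EQV : T_EQV := Pool.Agent.H41.NV.pf_EQV a_IDC
theorem a_VCL : T_VCL := Pool.Agent.H63.NV2.pf_VCL a_REP a_IDC a_HKC a_COO a_IDR
theorem a_BRA : T_BRA := Pool.Agent.H27.NV.pf_BRA
theorem a_BRK : T_BRK := Pool.Agent.H94.NV.pf_BRK
theorem a_TRA : T_TRA := Pool.Agent.H11.NV.pf_TRA a_FUN a_KDM a_IDC a_BRA a_BRK
theorem a_INQ : T_INQ := Pool.Agent.H34.NV.pf_INQ a_EQV a_BRK
theorem a_NUP : T_NUP := Pool.Agent.H4.NV.pf_NUP a_HEC a_IDC a_IDN a_COO a_BRA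
theorem a_NUM : T_NUM := Pool.Agent.H22.NV.pf_NUM
theorem a_BIJ : T_BIJ := Pool.Agent.H22.NV.pf_BIJ a_VCL a_NUP a_NUM a_IDC
theorem a_VKE : T_VKE := Pool.Agent.H34.NV.pf_VKE
theorem a_SIJ : T_SIJ := Pool.Agent.H16.NV.pf_SIJ
theorem a_ZSJ : T_ZSJ := Pool.Agent.H33.NV.pf_ZSJ a_BIJ a_SIJ
theorem a_FMX : T_FMX := Pool.Agent.H11.NV.pf_FMX a_IDX a_IDC
theorem a_LFX : T_LFX := Pool.Agent.H6.NV.pf_LFX a_BIJ a_IDC a_BRA
theorem a_ZVN : T_ZVN := Pool.Agent.H6.NV.pf_ZVN a_LFX a_ZSJ a_SIJ a_HKC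
theorem a_CHC : T_CHC := Pool.Agent.H11.NV.pf_CHC a_HKC
theorem a_PRA : T_PRA := Pool.Agent.H6.NV.pf_PRA a_TRA a_INQ a_FMX a_ZVN a_CHC a_BRA a_BRK a_HKC

theorem a_ISO : T_ISO := Pool.Agent.H27.NV.pf_ISO
theorem a_PFX : T_PFX := Pool.Agent.H54.NV.pf_PFX a_ISO a_CHC
theorem a_PFC : T_PFC := Pool.Agent.H11.NV.pf_PFC a_EXK a_BRK
theorem a_FSP : T_FSP := Pool.Agent.H34.NV.pf_FSP
theorem a_FAM : T_FAM :=
  Pool.Agent.H39.NV.pf_FAM a_EXK a_TCX a_REP a_KDX a_KDU a_KDM a_KDT a_KDF a_FUN a_BRA a_BRK a_DSC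
theorem a_CLX : T_CLX :=
  Pool.Agent.H6.NV.pf_CLX a_EXK a_TCX a_FUN a_KDT a_KDF a_FSP a_REP a_KDX a_KDU a_KDM a_BRA a_BRK
    a_DSC a_ISO
theorem a_FDN : T_FDN := Pool.Agent.H57.NV.pf_FDN
theorem a_DRL : T_DRL := Pool.Agent.H27.NV.pf_DRL a_SIJ
theorem a_CGD : T_CGD := Pool.Agent.H11.NV.pf_CGD a_FDN
theorem a_NSD : T_NSD := Pool.Agent.H57.NV.pf_NSD
theorem a_PIF : T_PIF := Pool.Agent.H27.NV.pf_PIF
theorem a_SPP : T_SPP := Pool.Agent.H6.NV.pf_SPP a_COO a_FNV a_IDC a_IDR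
theorem a_ORD : T_ORD := Pool.Agent.H3.NV.pf_ORD a_SPP a_SMV a_CHC a_HKC Pool.Agent.H31.CN.Fin.c_CH2
theorem a_NSX : T_NSX := pf_NSX a_NSD a_PIF a_FSP
theorem a_TAX : T_TAX := pf_TAX a_NSX a_ORD a_FSP a_DSC a_EXK a_BRK a_FUN a_BRA
theorem a_ZS2 : T_ZS2 := Pool.Agent.H34.NV.pf_ZS2
theorem a_CKE : T_CKE := Pool.Agent.H68.NV.pf_CKE a_EXK a_BRK
theorem a_CSQ : T_CSQ := Pool.Agent.H27.NV.pf_CSQ
theorem a_SMF : T_SMF := Pool.Agent.H4.NV.pf_SMF a_CSQ a_DRL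
theorem a_SMX : T_SMX := pf_SMX a_SMF a_CGD a_FSP a_DRL
theorem a_SHP : T_SHP := Pool.Agent.H6.NV.pf_SHP
theorem a_PRR : T_PRR := Pool.Agent.H81.NV.pf_PRR a_CHC Pool.Agent.H31.CN.Fin.c_ENT
theorem a_FNA : T_FNA :=
  pf_FNA a_PFX a_PFC a_FSP a_FAM a_CLX a_ZS2 a_CKE a_SMX a_SHP a_TAX a_PRR

/-- part A: the theorem from the interface statements of the other parts -/
theorem partA (hUNF : ∀ (k : Type) [Field k] [NumberField k] [IsTotallyReal k],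
      Pool.Agent.H89.NV.T_UNF k)
    (hAUT : ∀ (k : Type) [Field k] [NumberField k] [IsTotallyReal k], Pool.Agent.H89.NV.T_AUT k)
    (hEPS : ∀ (k : Type) [Field k] [NumberField k] [IsTotallyReal k], Pool.Agent.H89.NV.T_EPS k)
    (hSM2 : ∀ (k : Type) [Field k] [NumberField k] [IsTotallyReal k], Pool.Agent.H89.NV.T_SM2 k)
    (hFM1 : ∀ (k : Type) [Field k] [NumberField k] [IsTotallyReal k], Pool.Agent.H89.NV.T_FM1 k)
    (hNFD : ∀ (k : Type) [Field k] [NumberField k] [IsTotallyReal k], Pool.Agent.H89.NV.T_NFD k)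
    (hCRR : ∀ (k : Type) [Field k] [NumberField k] [IsTotallyReal k], Pool.Agent.H89.NV.T_CRR k)
    (hCNT : ∀ (k : Type) [Field k] [NumberField k] [IsTotallyReal k], Pool.Agent.H89.NV.T_CNT k)
    (hPUN : ∀ (k : Type) [Field k] [NumberField k] [IsTotallyReal k], Pool.Agent.H89.NV.T_PUN k) :
    T_FNL := by
  intro k _ _ _
  exact a_FNA k (hUNF k) (hAUT k) (a_PRA k (hUNF k) (hAUT k) (hEPS k) (a_VKE k)) (hSM2 k)
    (hFM1 k) (hNFD k) (hCRR k) (hCNT k) (hPUN k)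

end Pool.Agent.H95.NV
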