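import Pool.Agent.H95.NV.Targets4
import Pool.Agent.H95.NV.FNA

/-!
# NVK, part A: (FNB), the assembly of the theorem with irreducibility over `ℚ`
-/

set_option autoImplicit false

open MeasureTheory Set Filter NumberField
open scoped Real nonZeroDivisors

namespace Pool.Agent.H95.NV

open Pool.Agent.H61.NVK (ci)
open Pool.Agent.H89.NV (CK prp tp)

theorem pf_FNB (hPFX : T_PFX) (hPFC : T_PFC) (hFSP : T_FSP) (hFAM : T_FAM) (hCLX : T_CLX)
    (hZS2 : T_ZS2) (hCKE : T_CKE) (hSMX : T_SMX) (hSHP : T_SHP) (hPFN : T_PFN) (hTAN : T_TAN)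
    (hEXS : T_EXS) (hPRM : T_PRM) (hREP : T_REP) (hKDX : T_KDX) (hBRK : T_BRK) : T_FNB := by
  classical
  intro hall k _ _ _
  obtain ⟨hUNF, hAUT, hPRO, hSM2, hFM1, hNFD, hCRR, hCNT, hPUN⟩ := hall k
  obtain ⟨Ψ, h1, h2, h3⟩ := hPUN
  have hPU : PU k Ψ := ⟨h1, fun u hu => (h2 u hu).1,
    fun u t ht => (h2 (fun _ => 1) (fun _ => one_pos)).2 u t ht, h3⟩
  obtain ⟨pf, τ₀, hb, hv⟩ := hPFX k
  obtain ⟨τ, ρ, hc0, hw0⟩ := hPFN k (Nx k)
  have hN : 1 ≤ Nx k := Nat.mul_pos two_pos (Nat.factorial_pos _)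
  have hPf : Pf k pf := hPFC k hPRO pf (fun D => ⟨(hb D).1, (hb D).2.1⟩)
    (fun D K _ _ _ h => (hv D K h).1)
  have hZ := hZS2 k hUNF hAUT (hCKE k)
  have hS := hSMX k hSM2 hFM1 hNFD hCRR hCNT hZ Ψ hPU
  have hF := hFSP k Ψ hPU
  obtain ⟨⟨c, C, X₀, hc, hC, hgr⟩, hsh⟩ := hSHP (ClassGroup (𝓞 k) × 𝓞 k) (mul k Ψ)
    (fun x => dsz k (ci x.1) x.2) (fun x => pf x.2) (19 / 27) (by norm_num)
    (fun x => ⟨(hF.1 x).1, (hb x.2).1, (hb x.2).2.1, (hF.1 x).2⟩) hF.2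
    (fun w hw ε hε => by
      obtain ⟨c, hc, X₀, h⟩ := hS w hw ε hε
      exact ⟨c, hc, X₀, fun X hX => h X hX pf hPf⟩)
  have key : ∀ (X : ℝ) (ι : Type) [Fintype ι] (K : ι → Type) [∀ i, Field (K i)]
      [∀ i, NumberField (K i)] [∀ i, Algebra k (K i)], CL k X ι K →
      ∀ (p : 𝓞 k → ℝ) (pr : ι → ℝ), (∀ i (D : 𝓞 k) (_ : CK D (K i)), pr i = p D) →
      ∑ i, pr i = ∑' x : ClassGroup (𝓞 k) × 𝓞 k,
        if dsz k (ci x.1) x.2 ≤ X then mul k Ψ x * p x.2 else 0 := by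
    intro X ι _ K _ _ _ hCL p pr hpr
    have h := hFAM k Ψ hPU X ι K hCL (fun x => if x ≤ X then 1 else 0) p pr
      (fun x hx => if_neg (not_le.2 hx)) hpr
    have e1 : ∑ i, pr i = ∑ i, (if |(discr (K i) : ℝ)| ≤ X then (1 : ℝ) else 0) * pr i := by
      refine Finset.sum_congr rfl fun i _ => ?_
      rw [if_pos (hCL.le i), one_mul]
    rw [e1, h]
    refine tsum_congr fun x => ?_
    by_cases hx : dsz k (ci x.1) x.2 ≤ X
    · rw [if_pos hx, if_pos hx, mul_one]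
    · rw [if_neg hx, if_neg hx, mul_zero, zero_mul]
  have cnt : ∀ (X : ℝ) (ι : Type) [Fintype ι] (K : ι → Type) [∀ i, Field (K i)]
      [∀ i, NumberField (K i)] [∀ i, Algebra k (K i)], CL k X ι K →
      (Fintype.card ι : ℝ) = ∑' x : ClassGroup (𝓞 k) × 𝓞 k,
        if dsz k (ci x.1) x.2 ≤ X then mul k Ψ x else 0 := by
    intro X ι _ K _ _ _ hCL
    have h := key X ι K hCL (fun _ => 1) (fun _ => 1) (fun _ _ _ => rfl)
    rw [Finset.sum_const, Finset.card_univ, nsmul_eq_mul, mul_one] at h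
    rw [h]
    refine tsum_congr fun x => ?_
    by_cases hx : dsz k (ci x.1) x.2 ≤ X
    · rw [if_pos hx, if_pos hx, mul_one]
    · rw [if_neg hx, if_neg hx]
  have hCKx : ∀ (K : Type) [Field K] [NumberField K] [Algebra k K]
      [Algebra.IsQuadraticExtension k K] [IsTotallyComplex K], ∃ D : 𝓞 k, tp D ∧
      Nonempty (CK D K) := by
    intro K _ _ _ _ _
    obtain ⟨R, hR, -⟩ := (hREP k).1
    obtain ⟨f, -, D, b, δ, hKD⟩ := hKDX k K R hR
    obtain ⟨h, -⟩ := (hBRK k K D).2 hKD.pos inferInstance δ hKD.sq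
    exact ⟨D, hKD.pos, ⟨h⟩⟩
  refine ⟨fun X => hCLX k Ψ hPU X, ⟨c, C, X₀, hc, hC, fun X hX ι _ K _ _ _ hCL => ?_⟩, ?_⟩
  · rw [cnt X ι K hCL]
    exact hgr X hX
  intro ε hε
  obtain ⟨X₁, hX₁⟩ := hsh (ε / 3) (by positivity)
  obtain ⟨X₂, hX₂⟩ := hTAN k hCNT Ψ hPU C ⟨X₀, fun X hX => (hgr X hX).2⟩ (Nx k) τ hN
    (fun D => ⟨(hc0 D).1, (hc0 D).2.1⟩) (fun D K _ _ _ h => (hw0 D D K h h).1) (ε / 3 * c)
    (by positivity)
  obtain ⟨X₃, hX₃⟩ := hEXS k hCNT Ψ hPU C ⟨X₀, fun X hX => (hgr X hX).2⟩ (ε / 3 * c)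
    (by positivity)
  refine ⟨max (max X₀ X₁) (max X₂ X₃), fun X hX ι _ K _ _ _ hCL => ?_⟩
  have hx0 : X₀ ≤ X := le_trans (le_trans (le_max_left _ _) (le_max_left _ _)) hX
  have hx1 : X₁ ≤ X := le_trans (le_trans (le_max_right _ _) (le_max_left _ _)) hX
  have hx2 : X₂ ≤ X := le_trans (le_trans (le_max_left _ _) (le_max_right _ _)) hX
  have hx3 : X₃ ≤ X := le_trans (le_trans (le_max_right _ _) (le_max_right _ _)) hX
  have a1 := hX₁ X hx1
  have a2 := hX₂ X hx2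
  have a3 := hX₃ X hx3
  have a0 := (hgr X hx0).1
  have hD : ∀ i, ∃ D : 𝓞 k, tp D ∧ Nonempty (CK D (K i)) := by
    intro i
    have := hCL.quad i
    have := hCL.cm i
    exact hCKx (K i)
  choose Dd hDd1 hDd2 using hD
  have b1 := key X ι K hCL pf (fun i => prp k (K i)) (fun i D h => (hv D (K i) h).1)
  have b2 := key X ι K hCL τ (fun i => rcN k (Nx k) (K i))
    (fun i D h => (hw0 D D (K i) h h).1)
  have b4 := key X ι K hCL ρ (fun i => ρ (Dd i))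
    (fun i D h => by
      obtain ⟨h'⟩ := hDd2 i
      exact (hw0 (Dd i) D (K i) h' h).2)
  have b0 := cnt X ι K hCL
  have b3 : ∑ i, ((prp k (K i) - rcN k (Nx k) (K i)) - ρ (Dd i)) ≤ ∑ i, prM k (K i) := by
    refine Finset.sum_le_sum fun i _ => ?_
    obtain ⟨h⟩ := hDd2 i
    obtain ⟨⟨q1, q2⟩, q3⟩ := hPRM k (K i) (Dd i) h (hDd1 i)
    have q4 := (hw0 (Dd i) (Dd i) (K i) h h).1
    have q5 := hc0 (Dd i)
    by_cases hρ : ρ (Dd i) = 1
    · rw [q4, hρ]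
      linarith [q5.1]
    · have := q2 (q5.2.2.2.2.2 hρ)
      linarith [q5.2.2.1]
  rw [Finset.sum_sub_distrib, Finset.sum_sub_distrib, b1, b2, b4] at b3
  have s0 := (hFSP k Ψ hPU).2 X
  have b5 : ∑' x : ClassGroup (𝓞 k) × 𝓞 k,
        (if dsz k (ci x.1) x.2 ≤ X then mul k Ψ x * ρ x.2 else 0) ≤
      ∑' x : ClassGroup (𝓞 k) × 𝓞 k,
        (if dsz k (ci x.1) x.2 ≤ X ∧ exc k x.2 then mul k Ψ x else 0) := by
    refine Summable.tsum_le_tsum (fun x => ?_) ?_ ?_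
    · have hm := (hF.1 x).1
      by_cases hx : dsz k (ci x.1) x.2 ≤ X
      · rw [if_pos hx]
        by_cases he : exc k x.2
        · rw [if_pos ⟨hx, he⟩]
          exact mul_le_of_le_one_right hm (hc0 x.2).2.2.2.1
        · have : ρ x.2 = 0 := by
            by_contra h
            exact he ((hc0 x.2).2.2.2.2.1 h)
          rw [this, mul_zero, if_neg (fun h => he h.2)]
      · rw [if_neg hx]
        split_ifs
        · exact hm
        · exact le_refl _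
    · refine summable_of_hasFiniteSupport (s0.subset fun x hx => ?_)
      have h1 : (if dsz k (ci x.1) x.2 ≤ X then mul k Ψ x * ρ x.2 else 0) ≠ 0 := hx
      split_ifs at h1 with h2
      · exact ⟨left_ne_zero_of_mul h1, h2⟩
      · exact absurd rfl h1
    · refine summable_of_hasFiniteSupport (s0.subset fun x hx => ?_)
      have h1 : (if dsz k (ci x.1) x.2 ≤ X ∧ exc k x.2 then mul k Ψ x else 0) ≠ 0 := hx
      split_ifs at h1 with h2
      · exact ⟨h1, h2.1⟩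
      · exact absurd rfl h1
  rw [b0]
  have e : ε / 3 * c * X ≤ ε / 3 * ∑' x : ClassGroup (𝓞 k) × 𝓞 k,
      (if dsz k (ci x.1) x.2 ≤ X then mul k Ψ x else 0) := by
    rw [mul_assoc]
    exact mul_le_mul_of_nonneg_left a0 (by positivity)
  nlinarith [a1, a2, a3, e, b3, b5]

end Pool.Agent.H95.NV
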