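import Pool.Agent.H95.NV.Targets4
import Pool.Agent.H27.NV.ISO
import Pool.Agent.H54.NV.PFX

/-!
# NVK, part A: (PFN), the proportion of the characters of exponent `N` as a function of the
discriminant, and the exceptional fields
-/

set_option autoImplicit false

open NumberField
open scoped Real nonZeroDivisors

namespace Pool.Agent.H95.NV

open Pool.Agent.H89.NV (CK TrK prp)

theorem iso_rcN {k K K' : Type} [Field k] [NumberField k] [Field K] [NumberField K] [Algebra k K]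
    [Field K'] [NumberField K'] [Algebra k K'] (e : K ≃ₐ[k] K') (N : ℕ) :
    rcN k N K = rcN k N K' := by
  obtain ⟨Φ, h1, h2, -, -⟩ := Pool.Agent.H27.NV.exists_equiv e
  have hT : ∀ ψ, TrK k K ψ ↔ TrK k K' (Φ ψ) := by
    intro ψ
    constructor
    · exact (Pool.Agent.H27.NV.one_dir e ψ (Φ ψ) (h1 ψ)).1
    · refine (Pool.Agent.H27.NV.one_dir e.symm (Φ ψ) ψ ?_).1
      intro J
      have h4 := h2 (Φ ψ) J
      rw [Equiv.symm_apply_apply] at h4
      exact h4
  have hS : ∀ ψ, ψ ^ N = 1 ↔ Φ ψ ^ N = 1 := by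
    intro ψ
    constructor
    · intro h
      ext x
      obtain ⟨J, rfl⟩ := ClassGroup.mk0_surjective x
      rw [MonoidHom.pow_apply, h1, ← MonoidHom.pow_apply, h]
      rfl
    · intro h
      ext x
      obtain ⟨J, rfl⟩ := ClassGroup.mk0_surjective x
      have h4 := h2 (Φ ψ) J
      rw [Equiv.symm_apply_apply] at h4
      rw [MonoidHom.pow_apply, h4, ← MonoidHom.pow_apply, h]
      rfl
  have hc : Nat.card {ψ : ClassGroup (𝓞 K) →* ℂˣ // TrK k K ψ} =
      Nat.card {ψ : ClassGroup (𝓞 K') →* ℂˣ // TrK k K' ψ} :=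
    Nat.card_congr (Φ.subtypeEquiv hT)
  have hc2 : Nat.card {ψ : ClassGroup (𝓞 K) →* ℂˣ // TrK k K ψ ∧ ψ ^ N = 1} =
      Nat.card {ψ : ClassGroup (𝓞 K') →* ℂˣ // TrK k K' ψ ∧ ψ ^ N = 1} :=
    Nat.card_congr (Φ.subtypeEquiv fun ψ => and_congr (hT ψ) (hS ψ))
  unfold rcN
  rw [hc, hc2]

theorem exc_of {k K : Type} [Field k] [NumberField k] [Field K] [NumberField K] [Algebra k K]
    {D D' : 𝓞 k} (h : CK D K) (h' : CK D' K) (he : exc k D) : exc k D' := by
  obtain ⟨σ, τ, hne, m, hm, hsq⟩ := he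
  have e1 := h.eq h'.s
  set a := h.re h'.s with ha
  set y := h.im h'.s with hy
  have e2 : h'.s * h'.s = algebraMap k K (a * a - y * y * (D : k)) +
      algebraMap k K (a * y + y * a) * h.s := Pool.Agent.H54.NV.mul_eq h h'.s h'.s
  have e3 : h'.s * h'.s = algebraMap k K (-(D' : k)) + algebraMap k K 0 * h.s := by
    rw [h'.sq, map_neg, map_zero, zero_mul, add_zero]
  have e4 : a * y + y * a = 0 := by
    have h5 := congrArg h.im (e2.symm.trans e3)
    rwa [Pool.Agent.H54.NV.im_add, Pool.Agent.H54.NV.im_add] at h5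
  have e5 : a * a - y * y * (D : k) = -(D' : k) := by
    have h5 := congrArg h.re (e2.symm.trans e3)
    rwa [Pool.Agent.H54.NV.re_add, Pool.Agent.H54.NV.re_add] at h5
  have hy0 : y ≠ 0 := by
    intro h0
    rw [h0, map_zero, zero_mul, add_zero] at e1
    have h6 : h'.im h'.s = h'.im (algebraMap k K a) := congrArg h'.im e1
    rw [h'.ims, Algebra.algebraMap_eq_smul_one, map_smul, h'.im1, smul_zero] at h6
    exact one_ne_zero h6
  have ha0 : a = 0 := by
    have h7 : 2 * (a * y) = 0 := by linear_combination e4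
    rcases mul_eq_zero.1 h7 with h8 | h8
    · exact absurd h8 two_ne_zero
    · exact (mul_eq_zero.1 h8).resolve_right hy0
  have hD' : (D' : k) = y ^ 2 * (D : k) := by
    rw [ha0] at e5
    linear_combination e5
  refine ⟨σ, τ, hne, σ y * τ y * m, ?_, ?_⟩
  · refine mul_mem (mul_mem ?_ ?_) hm
    · exact Subfield.subset_closure (Or.inl ⟨y, rfl⟩)
    · exact Subfield.subset_closure (Or.inr ⟨y, rfl⟩)
  · rw [hD', map_mul, map_mul, map_pow, map_pow]
    linear_combination (σ y ^ 2 * τ y ^ 2) * hsq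

theorem pf_PFN (hCHC : T_CHC) : T_PFN := by
  classical
  intro k _ _ _ N
  have hb : ∀ (K : Type) [Field K] [NumberField K] [Algebra k K],
      0 ≤ rcN k N K ∧ rcN k N K ≤ 1 := by
    intro K _ _ _
    have : Finite (ClassGroup (𝓞 K) →* ℂˣ) := (hCHC k K).2.1
    have h2 : Nat.card {ψ : ClassGroup (𝓞 K) →* ℂˣ // TrK k K ψ ∧ ψ ^ N = 1} ≤
        Nat.card {ψ : ClassGroup (𝓞 K) →* ℂˣ // TrK k K ψ} :=
      Nat.card_le_card_of_injective (fun x => ⟨x.1, x.2.1⟩) fun x y hxy =>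
        Subtype.ext (Subtype.mk.inj hxy)
    exact Pool.Agent.H54.NV.div_bds _ _ h2
  have hex : ∀ D : 𝓞 k, ∃ x : ℝ, (0 ≤ x ∧ x ≤ 1) ∧
      ∀ (K : Type) [Field K] [NumberField K] [Algebra k K] (_ : CK D K), rcN k N K = x := by
    intro D
    by_cases h : ∃ (K : Type) (_ : Field K) (_ : NumberField K) (_ : Algebra k K),
        Nonempty (CK D K)
    · obtain ⟨K, _, _, _, ⟨hK⟩⟩ := h
      refine ⟨rcN k N K, hb K, ?_⟩
      intro K' _ _ _ hK'
      exact iso_rcN (AlgEquiv.ofBijective (Pool.Agent.H54.NV.hm hK' hK)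
        (Pool.Agent.H54.NV.hm_bij hK' hK)) N
    · refine ⟨0, ⟨le_refl _, zero_le_one⟩, ?_⟩
      intro K i1 i2 i3 hK
      exact absurd ⟨K, i1, i2, i3, ⟨hK⟩⟩ h
  choose τ h1 h2 using hex
  refine ⟨τ, fun D => if exc k D then 1 else 0, fun D => ⟨(h1 D).1, (h1 D).2, ?_, ?_, ?_, ?_⟩, ?_⟩
  · change (0 : ℝ) ≤ if exc k D then 1 else 0
    split_ifs <;> norm_num
  · change (if exc k D then (1 : ℝ) else 0) ≤ 1
    split_ifs <;> norm_num
  · intro h
    by_contra h'
    exact h (if_neg h')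
  · intro h h'
    exact h (if_pos h')
  · intro D D' K _ _ _ hD hD'
    refine ⟨h2 D K hD, ?_⟩
    change (if exc k D then (1 : ℝ) else 0) = if exc k D' then 1 else 0
    by_cases h : exc k D
    · rw [if_pos h, if_pos (exc_of hD hD' h)]
    · rw [if_neg h, if_neg (fun h' => h (exc_of hD' hD h'))]

end Pool.Agent.H95.NV
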