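import Pool.Agent.H95.NV.Targets4
import Pool.Agent.H95.NV.TAX

/-!
# NVK, part A: (TAN), few characters are of exponent `N`, in the mean
-/

set_option autoImplicit false

open MeasureTheory Set Filter NumberField
open scoped Real nonZeroDivisors

namespace Pool.Agent.H95.NV

open Pool.Agent.H65.CM4 (Pl rv nm dk dg V2 Fo)
open Pool.Agent.H61.NVK (ci cr)
open Pool.Agent.H89.NV (PrI np nS idS ni q4 Dis Fnd good bD Rs CK em tp sd TrK prp PM qN dR kf GW)

theorem pf_TAN (hNSX : T_NSX) (hORN : T_ORN) (hFSP : T_FSP) (hDSC : T_DSC) (hEXK : T_EXK)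
    (hBRK : T_BRK) (hFUN : T_FUN) (hBRA : T_BRA) : T_TAN := by
  classical
  intro k _ _ _ hCNT Ψ hΨ C hC N τ hN hτ hτv ε hε
  obtain ⟨X₀, hX₀⟩ := hC
  set C' : ℝ := max C 1 with hC'
  have hC1 : 1 ≤ C' := le_max_right _ _
  have hCC : C ≤ C' := le_max_left _ _
  have hC0 : 0 < C' := by linarith
  set η : ℝ := min (ε / (4 * C')) (1 / 2) with hη
  have hη0 : 0 < η := lt_min (by positivity) (by norm_num)
  have hη1 : η ≤ 1 / 2 := min_le_right _ _
  have hη2 : η ≤ ε / (4 * C') := min_le_left _ _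
  obtain ⟨w, hw, hw1⟩ := sw_exists η hη0 hη1
  obtain ⟨α, hα, hsupp⟩ := hw.supp
  obtain ⟨Q, hQ, X₁, hX₁⟩ := hNSX k hCNT Ψ hΨ w hw (ε / 4) (by positivity)
  obtain ⟨J, hJ⟩ := exists_nat_ge (4 * C' / ε)
  set Y : ℝ := ∑ P ∈ Q, np P + 1 with hY
  have hnp : ∀ P : PrI k, 0 ≤ np P := fun P => Nat.cast_nonneg _
  have hYP : ∀ P ∈ Q, np P ≤ Y := by
    intro P hP
    have := Finset.single_le_sum (fun P _ => hnp P) hP
    rw [hY]
    linarith
  have hY0 : 0 ≤ Y := by
    have : 0 ≤ ∑ P ∈ Q, np P := Finset.sum_nonneg fun P _ => hnp P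
    rw [hY]
    linarith
  set Z : ℝ := 4 ^ dg k * (dk k : ℝ) ^ 2 * Y ^ (N * J) with hZ
  have hZ0 : 0 ≤ Z := by positivity
  refine ⟨max (max X₀ X₁) (max (X₀ / η) (Z / η + 1)), fun X hX => ?_⟩
  have a1 : X₀ ≤ X := le_trans (le_trans (le_max_left _ _) (le_max_left _ _)) hX
  have a2 : X₁ ≤ X := le_trans (le_trans (le_max_right _ _) (le_max_left _ _)) hX
  have a3 : X₀ / η ≤ X := le_trans (le_trans (le_max_left _ _) (le_max_right _ _)) hX
  have a4 : Z / η + 1 ≤ X := le_trans (le_trans (le_max_right _ _) (le_max_right _ _)) hX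
  have hX0 : 0 < X := by
    have : 0 ≤ Z / η := by positivity
    linarith
  have a5 : X₀ ≤ η * X := by
    rw [div_le_iff₀ hη0] at a3
    linarith [mul_comm X η]
  have a6 : Z < η * X := by
    have : Z / η < X := by linarith
    rw [div_lt_iff₀ hη0] at this
    linarith [mul_comm X η]
  have hm0 : ∀ x, 0 ≤ mul k Ψ x := fun x => ((hFSP k Ψ hΨ).1 x).1
  have hτε : ∀ x : ClassGroup (𝓞 k) × 𝓞 k, mul k Ψ x ≠ 0 → η * X < dsz k (ci x.1) x.2 →
      ¬ (∀ P ∈ Q, ¬ spl (ci x.1) P x.2) → τ x.2 ≤ ε / (4 * C') := by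
    rintro ⟨c, D⟩ hx hxX hP
    dsimp only at hx hxX hP ⊢
    push Not at hP
    obtain ⟨P, hP1, hP2⟩ := hP
    have hx2 : tp D ∧ Fnd (ci c) D := by
      by_contra h
      refine hx ?_
      unfold mul
      rw [if_neg h]
    obtain ⟨K, _, _, _, _, δ, hδ⟩ := hEXK k D hx2.1
    obtain ⟨h, hh⟩ := (hBRK k K D).2 hx2.1 inferInstance δ hδ
    have hFu : Fun (ci c) D := ((hBRA k).2.2.2.2 (ci c) D (ci_ne c)).1 hx2.2
    obtain ⟨b, hKD⟩ := hFUN k K (ci c) D δ hx2.1 hδ hFu
    have hd := hDSC k K (ci c) D b δ hKD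
    have hnm := nmp (ci_ne c)
    have hds : |(discr K : ℝ)| = dsz k (ci c) D := by
      unfold dsz
      rw [eq_div_iff (by positivity)]
      exact hd
    have hlt : 4 ^ dg k * (dk k : ℝ) ^ 2 * np P ^ (N * J) < |(discr K : ℝ)| := by
      have h1 : np P ^ (N * J) ≤ Y ^ (N * J) := pow_le_pow_left₀ (hnp P) (hYP P hP1) _
      have h2 : 4 ^ dg k * (dk k : ℝ) ^ 2 * np P ^ (N * J) ≤ Z :=
        mul_le_mul_of_nonneg_left h1 (by positivity)
      rw [hds]
      linarith
    have h1 := hORN k K (ci c) D b δ hKD P (hQ P hP1) hP2 N J hN hlt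
    rw [hτv D K h] at h1
    rw [le_div_iff₀ (by positivity)]
    have h2 : 4 * C' ≤ (J + 1) * ε := by
      rw [div_le_iff₀ hε] at hJ
      linarith
    have h3 := (hτ D).1
    nlinarith [mul_le_mul_of_nonneg_left h2 h3, mul_le_mul_of_nonneg_right h1 hε.le]
  have f0 := (hFSP k Ψ hΨ).2 X
  have s1 : Summable fun x : ClassGroup (𝓞 k) × 𝓞 k =>
      if dsz k (ci x.1) x.2 ≤ X then mul k Ψ x * τ x.2 else 0 := by
    refine summable_of_hasFiniteSupport (f0.subset fun x hx => ?_)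
    have h1 : (if dsz k (ci x.1) x.2 ≤ X then mul k Ψ x * τ x.2 else 0) ≠ 0 := hx
    split_ifs at h1 with h2
    · exact ⟨left_ne_zero_of_mul h1, h2⟩
    · exact absurd rfl h1
  have s2 : Summable fun x : ClassGroup (𝓞 k) × 𝓞 k =>
      if dsz k (ci x.1) x.2 ≤ η * X then mul k Ψ x else 0 := by
    refine summable_of_hasFiniteSupport (((hFSP k Ψ hΨ).2 (η * X)).subset fun x hx => ?_)
    have h1 : (if dsz k (ci x.1) x.2 ≤ η * X then mul k Ψ x else 0) ≠ 0 := hx
    split_ifs at h1 with h2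
    · exact ⟨h1, h2⟩
    · exact absurd rfl h1
  have s3 : Summable fun x : ClassGroup (𝓞 k) × 𝓞 k => if ∀ P ∈ Q, ¬ spl (ci x.1) P x.2 then
      mul k Ψ x * w (dsz k (ci x.1) x.2 / X) else 0 := by
    refine summable_of_hasFiniteSupport (fsup hFSP hΨ hsupp hX0 _ fun x hx => ?_)
    split_ifs at hx with h2
    · exact hx
    · exact absurd rfl hx
  have s4 : Summable fun x : ClassGroup (𝓞 k) × 𝓞 k =>
      if dsz k (ci x.1) x.2 ≤ X then mul k Ψ x else 0 := by
    refine summable_of_hasFiniteSupport (f0.subset fun x hx => ?_)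
    have h1 : (if dsz k (ci x.1) x.2 ≤ X then mul k Ψ x else 0) ≠ 0 := hx
    split_ifs at h1 with h2
    · exact ⟨h1, h2⟩
    · exact absurd rfl h1
  have s5 := s4.mul_left (ε / (4 * C'))
  have hle : ∑' x : ClassGroup (𝓞 k) × 𝓞 k,
      (if dsz k (ci x.1) x.2 ≤ X then mul k Ψ x * τ x.2 else 0) ≤
      ∑' x : ClassGroup (𝓞 k) × 𝓞 k, (((if dsz k (ci x.1) x.2 ≤ η * X then mul k Ψ x else 0) +
        (if ∀ P ∈ Q, ¬ spl (ci x.1) P x.2 then
          mul k Ψ x * w (dsz k (ci x.1) x.2 / X) else 0)) +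
        ε / (4 * C') * (if dsz k (ci x.1) x.2 ≤ X then mul k Ψ x else 0)) := by
    refine s1.tsum_le_tsum (fun x => ?_) ((s2.add s3).add s5)
    have p1 : 0 ≤ (if dsz k (ci x.1) x.2 ≤ η * X then mul k Ψ x else 0) := by
      split_ifs
      · exact hm0 x
      · exact le_refl _
    have p2 : 0 ≤ (if ∀ P ∈ Q, ¬ spl (ci x.1) P x.2 then
          mul k Ψ x * w (dsz k (ci x.1) x.2 / X) else 0) := by
      split_ifs
      · exact mul_nonneg (hm0 x) (hw.nonneg _)
      · exact le_refl _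
    have p3 : 0 ≤ ε / (4 * C') * (if dsz k (ci x.1) x.2 ≤ X then mul k Ψ x else 0) := by
      refine mul_nonneg (by positivity) ?_
      split_ifs
      · exact hm0 x
      · exact le_refl _
    by_cases hx : dsz k (ci x.1) x.2 ≤ X
    · by_cases hm : mul k Ψ x = 0
      · rw [if_pos hx, hm, zero_mul]
        rw [hm] at p1 p2 p3
        linarith
      by_cases h1 : dsz k (ci x.1) x.2 ≤ η * X
      · have h2 : (if dsz k (ci x.1) x.2 ≤ η * X then mul k Ψ x else 0) = mul k Ψ x := if_pos h1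
        have h3 : (if dsz k (ci x.1) x.2 ≤ X then mul k Ψ x * τ x.2 else 0) ≤ mul k Ψ x := by
          rw [if_pos hx]
          exact mul_le_of_le_one_right (hm0 x) (hτ _).2
        linarith
      · by_cases h4 : ∀ P ∈ Q, ¬ spl (ci x.1) P x.2
        · have h5 : w (dsz k (ci x.1) x.2 / X) = 1 := by
            refine hw1 _ ?_ ?_
            · rw [le_div_iff₀ hX0]
              exact (not_le.1 h1).le
            · rw [div_le_iff₀ hX0, one_mul]
              exact hx
          have h2 : (if ∀ P ∈ Q, ¬ spl (ci x.1) P x.2 then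
            mul k Ψ x * w (dsz k (ci x.1) x.2 / X) else 0) = mul k Ψ x := by
            rw [if_pos h4, h5, mul_one]
          have h3 : (if dsz k (ci x.1) x.2 ≤ X then mul k Ψ x * τ x.2 else 0) ≤ mul k Ψ x := by
            rw [if_pos hx]
            exact mul_le_of_le_one_right (hm0 x) (hτ _).2
          linarith
        · have h5 := hτε x hm (not_le.1 h1) h4
          have h3 : (if dsz k (ci x.1) x.2 ≤ X then mul k Ψ x * τ x.2 else 0) ≤
              ε / (4 * C') * (if dsz k (ci x.1) x.2 ≤ X then mul k Ψ x else 0) := by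
            rw [if_pos hx, if_pos hx, mul_comm]
            exact mul_le_mul_of_nonneg_right h5 (hm0 x)
          linarith
    · rw [if_neg hx]
      linarith
  rw [((s2.add s3).tsum_add s5), s2.tsum_add s3, tsum_mul_left] at hle
  have b1 := hX₀ (η * X) a5
  have b2 := hX₁ X a2
  have b3 := hX₀ X a1
  have b4 : C * (η * X) ≤ ε / 4 * X := by
    have h1 : C * (η * X) ≤ C' * (η * X) := mul_le_mul_of_nonneg_right hCC (by positivity)
    have h2 : η * (4 * C') ≤ ε := by
      rwa [le_div_iff₀ (by positivity)] at hη2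
    nlinarith
  have b5 : ε / (4 * C') * (C * X) ≤ ε / 4 * X := by
    have h1 : ε / (4 * C') * (C * X) ≤ ε / (4 * C') * (C' * X) :=
      mul_le_mul_of_nonneg_left (mul_le_mul_of_nonneg_right hCC hX0.le) (by positivity)
    have h2 : ε / (4 * C') * (C' * X) = ε / 4 * X := by
      field_simp
    linarith
  have b6 := mul_le_mul_of_nonneg_left b3 (show 0 ≤ ε / (4 * C') by positivity)
  have b7 : 0 ≤ ε / 4 * X := by positivity
  linarith

end Pool.Agent.H95.NV
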