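import Pool.Agent.H95.NV.AllA
import Pool.Agent.H98.NV.NRM
import Pool.Agent.H22.NV.NRD
import Pool.Agent.H22.NV.CJX
import Pool.Agent.H96.NV.EMJ
import Pool.Agent.H83.NV.MCK
import Pool.Agent.H82.NV.CHN
import Pool.Agent.H96.NV.DG1
import Pool.Agent.H22.NV.EPP
import Pool.Agent.H57.NV.NSE
import Pool.Agent.H82.NV.EXX
import Pool.Agent.H83.NV.PRM
import Pool.Agent.H95.NV.ORN
import Pool.Agent.H95.NV.PFN
import Pool.Agent.H95.NV.TAN
import Pool.Agent.H95.NV.EXS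
import Pool.Agent.H95.NV.FNB

/-!
# NVK, part A: the assembly, with irreducibility over `ℚ`
-/

set_option autoImplicit false

open NumberField
open scoped nonZeroDivisors

namespace Pool.Agent.H95.NV

theorem a_NRM : T_NRM := Pool.Agent.H98.NV.pf_NRM
theorem a_NRD : T_NRD := Pool.Agent.H22.NV.pf_NRD
theorem a_CJX : T_CJX := Pool.Agent.H22.NV.pf_CJX a_BRK
theorem a_EMJ : T_EMJ := Pool.Agent.H96.NV.pf_EMJ
theorem a_MCK : T_MCK := Pool.Agent.H83.NV.pf_MCK a_NRM a_NRD a_CJX a_EMJ a_BRK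
theorem a_CHN : T_CHN := Pool.Agent.H82.NV.pf_CHN
theorem a_ORN : T_ORN := pf_ORN a_SPP a_SMV a_CHC a_HKC a_CHN
theorem a_PFN : T_PFN := pf_PFN a_CHC
theorem a_TAN : T_TAN := pf_TAN a_NSX a_ORN a_FSP a_DSC a_EXK a_BRK a_FUN a_BRA
theorem a_DG1 : T_DG1 := Pool.Agent.H96.NVDG1.pf_DG1
theorem a_EPP : T_EPP := Pool.Agent.H22.NV_EPP.pf_EPP a_DG1
theorem a_NSE : T_NSE := Pool.Agent.H57.NV.pf_NSE
theorem a_EXX : T_EXX := Pool.Agent.H82.NV.pf_EXX a_EPP a_NSE a_FSP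
theorem a_EXS : T_EXS := pf_EXS a_EXX a_FSP
theorem a_PRM : T_PRM := Pool.Agent.H83.NV.pf_PRM a_MCK a_CHC a_BRK Pool.Agent.H31.CN.Fin.c_ENT
theorem a_FNB : T_FNB :=
  pf_FNB a_PFX a_PFC a_FSP a_FAM a_CLX a_ZS2 a_CKE a_SMX a_SHP a_PFN a_TAN a_EXS a_PRM a_REP a_KDX
    a_BRK

/-- part A: the theorem from the interface statements of the other parts -/
theorem partB (hUNF : ∀ (k : Type) [Field k] [NumberField k] [IsTotallyReal k],
      Pool.Agent.H89.NV.T_UNF k)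
    (hAUT : ∀ (k : Type) [Field k] [NumberField k] [IsTotallyReal k], Pool.Agent.H89.NV.T_AUT k)
    (hEPS : ∀ (k : Type) [Field k] [NumberField k] [IsTotallyReal k], Pool.Agent.H89.NV.T_EPS k)
    (hSM2 : ∀ (k : Type) [Field k] [NumberField k] [IsTotallyReal k], Pool.Agent.H89.NV.T_SM2 k)
    (hFM1 : ∀ (k : Type) [Field k] [NumberField k] [IsTotallyReal k], Pool.Agent.H89.NV.T_FM1 k)
    (hNFD : ∀ (k : Type) [Field k] [NumberField k] [IsTotallyReal k], Pool.Agent.H89.NV.T_NFD k)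
    (hCRR : ∀ (k : Type) [Field k] [NumberField k] [IsTotallyReal k], Pool.Agent.H89.NV.T_CRR k)
    (hCNT : ∀ (k : Type) [Field k] [NumberField k] [IsTotallyReal k], Pool.Agent.H89.NV.T_CNT k)
    (hPUN : ∀ (k : Type) [Field k] [NumberField k] [IsTotallyReal k], Pool.Agent.H89.NV.T_PUN k) :
    T_FN2 :=
  a_FNB fun k _ _ _ => ⟨hUNF k, hAUT k, a_PRA k (hUNF k) (hAUT k) (hEPS k) (a_VKE k), hSM2 k,
    hFM1 k, hNFD k, hCRR k, hCNT k, hPUN k⟩

end Pool.Agent.H95.NV
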