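import Pool.Agent.H95.NV.Targets4
import Pool.Agent.H95.NV.TAX

/-!
# NVK, part A: (EXS), few exceptional discriminants
-/

set_option autoImplicit false

open MeasureTheory Set Filter NumberField
open scoped Real nonZeroDivisors

namespace Pool.Agent.H95.NV

open Pool.Agent.H65.CM4 (Pl rv nm dk dg)
open Pool.Agent.H61.NVK (ci cr)
open Pool.Agent.H89.NV (PrI np em tp)

theorem pf_EXS (hEXX : T_EXX) (hFSP : T_FSP) : T_EXS := by
  classical
  intro k _ _ _ hCNT Ψ hΨ C hC ε hε
  obtain ⟨X₀, hX₀⟩ := hC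
  set C' : ℝ := max C 1 with hC'
  have hC1 : 1 ≤ C' := le_max_right _ _
  have hCC : C ≤ C' := le_max_left _ _
  have hC0 : 0 < C' := by linarith
  set η : ℝ := min (ε / (4 * C')) (1 / 2) with hη
  have hη0 : 0 < η := lt_min (by positivity) (by norm_num)
  have hη1 : η ≤ 1 / 2 := min_le_right _ _
  have hη2 : η ≤ ε / (4 * C') := min_le_left _ _
  obtain ⟨w, hw, hw1⟩ := sw_exists η hη0 hη1
  obtain ⟨α, hα, hsupp⟩ := hw.supp
  obtain ⟨X₁, hX₁⟩ := hEXX k hCNT Ψ hΨ w hw (ε / 4) (by positivity)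
  refine ⟨max (max X₀ X₁) (max (X₀ / η) 1), fun X hX => ?_⟩
  have a1 : X₀ ≤ X := le_trans (le_trans (le_max_left _ _) (le_max_left _ _)) hX
  have a2 : X₁ ≤ X := le_trans (le_trans (le_max_right _ _) (le_max_left _ _)) hX
  have a3 : X₀ / η ≤ X := le_trans (le_trans (le_max_left _ _) (le_max_right _ _)) hX
  have hX0 : 0 < X :=
    lt_of_lt_of_le one_pos (le_trans (le_trans (le_max_right _ _) (le_max_right _ _)) hX)
  have a5 : X₀ ≤ η * X := by
    rw [div_le_iff₀ hη0] at a3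
    linarith [mul_comm X η]
  have hm0 : ∀ x, 0 ≤ mul k Ψ x := fun x => ((hFSP k Ψ hΨ).1 x).1
  have f0 := (hFSP k Ψ hΨ).2 X
  have s1 : Summable fun x : ClassGroup (𝓞 k) × 𝓞 k =>
      if dsz k (ci x.1) x.2 ≤ X ∧ exc k x.2 then mul k Ψ x else 0 := by
    refine summable_of_hasFiniteSupport (f0.subset fun x hx => ?_)
    have h1 : (if dsz k (ci x.1) x.2 ≤ X ∧ exc k x.2 then mul k Ψ x else 0) ≠ 0 := hx
    split_ifs at h1 with h2
    · exact ⟨h1, h2.1⟩
    · exact absurd rfl h1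
  have s2 : Summable fun x : ClassGroup (𝓞 k) × 𝓞 k =>
      if dsz k (ci x.1) x.2 ≤ η * X then mul k Ψ x else 0 := by
    refine summable_of_hasFiniteSupport (((hFSP k Ψ hΨ).2 (η * X)).subset fun x hx => ?_)
    have h1 : (if dsz k (ci x.1) x.2 ≤ η * X then mul k Ψ x else 0) ≠ 0 := hx
    split_ifs at h1 with h2
    · exact ⟨h1, h2⟩
    · exact absurd rfl h1
  have s3 : Summable fun x : ClassGroup (𝓞 k) × 𝓞 k => if exc k x.2 then
      mul k Ψ x * w (dsz k (ci x.1) x.2 / X) else 0 := by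
    refine summable_of_hasFiniteSupport (fsup hFSP hΨ hsupp hX0 _ fun x hx => ?_)
    split_ifs at hx with h2
    · exact hx
    · exact absurd rfl hx
  have hle : ∑' x : ClassGroup (𝓞 k) × 𝓞 k,
      (if dsz k (ci x.1) x.2 ≤ X ∧ exc k x.2 then mul k Ψ x else 0) ≤
      ∑' x : ClassGroup (𝓞 k) × 𝓞 k, ((if dsz k (ci x.1) x.2 ≤ η * X then mul k Ψ x else 0) +
        (if exc k x.2 then mul k Ψ x * w (dsz k (ci x.1) x.2 / X) else 0)) := by
    refine s1.tsum_le_tsum (fun x => ?_) (s2.add s3)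
    have p1 : 0 ≤ (if dsz k (ci x.1) x.2 ≤ η * X then mul k Ψ x else 0) := by
      split_ifs
      · exact hm0 x
      · exact le_refl _
    have p2 : 0 ≤ (if exc k x.2 then mul k Ψ x * w (dsz k (ci x.1) x.2 / X) else 0) := by
      split_ifs
      · exact mul_nonneg (hm0 x) (hw.nonneg _)
      · exact le_refl _
    by_cases hx : dsz k (ci x.1) x.2 ≤ X ∧ exc k x.2
    · rw [if_pos hx]
      by_cases h1 : dsz k (ci x.1) x.2 ≤ η * X
      · rw [if_pos h1]
        linarith
      · have h5 : w (dsz k (ci x.1) x.2 / X) = 1 := by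
          refine hw1 _ ?_ ?_
          · rw [le_div_iff₀ hX0]
            exact (not_le.1 h1).le
          · rw [div_le_iff₀ hX0, one_mul]
            exact hx.1
        rw [if_pos hx.2, h5, mul_one]
        linarith
    · rw [if_neg hx]
      linarith
  rw [s2.tsum_add s3] at hle
  have b1 := hX₀ (η * X) a5
  have b2 := hX₁ X a2
  have b4 : C * (η * X) ≤ ε / 4 * X := by
    have h1 : C * (η * X) ≤ C' * (η * X) := mul_le_mul_of_nonneg_right hCC (by positivity)
    have h2 : η * (4 * C') ≤ ε := by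
      rwa [le_div_iff₀ (by positivity)] at hη2
    nlinarith
  have b7 : 0 ≤ ε / 4 * X := by positivity
  linarith

end Pool.Agent.H95.NV
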