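import Pool.Agent.H95.CM.Targets
import Pool.Agent.H31.CN.T5

/-!
# Nonvanishing for the class group characters of the CM extensions of a totally real field: part A

`k` is a totally real field, `K = k(δ)`, `δ ^ 2 = -D`, is a CM quadratic extension. Its integers are
`𝓞 k + f⁻¹ w`, `w = (b + δ) / 2`, for an ideal `f` of `𝓞 k` and numbers `b ∈ f`, `D` with
`b ^ 2 + D ∈ 4 f ^ 2`.
-/

set_option autoImplicit false

open NumberField
open scoped nonZeroDivisors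

namespace Pool.Agent.H95.NV

open Pool.Agent.H65.CM4 (Pl rv nm dk dg)
open Pool.Agent.H31.CN (IsLf)

section Base

variable {k : Type} [Field k] [NumberField k]

/-- `D` is totally positive -/
def TP [IsTotallyReal k] (D : 𝓞 k) : Prop := ∀ v : Pl k, 0 < rv v (D : k)

/-- the inverse of the ideal `f` -/
def fi (f : Ideal (𝓞 k)) : Set k := {q | ∀ a ∈ f, ∃ t : 𝓞 k, (t : k) = q * (a : k)}

/-- the pair `(A, b)` is a point of discriminant `D` -/
def Adm (f : Ideal (𝓞 k)) (D : 𝓞 k) (A : Ideal (𝓞 k)) (b : 𝓞 k) : Prop :=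
  A ≠ ⊥ ∧ b ∈ f ∧ ∃ c ∈ A * f ^ 2, 4 * c = b ^ 2 + D

/-- there is an order with the discriminant `D f⁻²` -/
def Val (f : Ideal (𝓞 k)) (D : 𝓞 k) : Prop := ∃ b ∈ f, ∃ c ∈ f ^ 2, 4 * c = b ^ 2 + D

/-- there is an order with the discriminant `D f⁻²`, and it is maximal -/
def Fun (f : Ideal (𝓞 k)) (D : 𝓞 k) : Prop :=
  f ≠ ⊥ ∧ Val f D ∧ ∀ P : Ideal (𝓞 k), P.IsPrime → P ≠ ⊥ → ¬ Val (f * P) D

/-- the ideals `I`, `J` of `𝓞 k` are in the same class -/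
def Eqc (I J : Ideal (𝓞 k)) : Prop :=
  ∃ x y : 𝓞 k, x ≠ 0 ∧ y ≠ 0 ∧ Ideal.span {x} * I = Ideal.span {y} * J

/-- integral representatives of the ideal classes of `k` -/
def Reps (R : Finset (Ideal (𝓞 k))) : Prop :=
  (∀ f ∈ R, f ≠ ⊥) ∧ (∀ I : Ideal (𝓞 k), I ≠ ⊥ → ∃ f ∈ R, Eqc I f) ∧
    ∀ f ∈ R, ∀ f' ∈ R, Eqc f f' → f = f'

end Base

section Field

variable {k K : Type} [Field k] [NumberField k] [Field K] [NumberField K] [Algebra k K]

theorem cadd (x y : 𝓞 k) : algebraMap k K ((x + y : 𝓞 k) : k) =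
    algebraMap k K (x : k) + algebraMap k K (y : k) := by rw [← map_add]; rfl

theorem cmul (x y : 𝓞 k) : algebraMap k K ((x * y : 𝓞 k) : k) =
    algebraMap k K (x : k) * algebraMap k K (y : k) := by rw [← map_mul]; rfl

/-- the number `(b + δ) / 2` -/
noncomputable def w (b : 𝓞 k) (δ : K) : K := (algebraMap k K (b : k) + δ) / 2

/-- the integers of `K` are `𝓞 k + f⁻¹ w`, of discriminant `D f⁻²` -/
structure KD [IsTotallyReal k] (f : Ideal (𝓞 k)) (D b : 𝓞 k) (δ : K) : Prop where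
  f_ne : f ≠ ⊥
  pos : TP D
  sq : δ ^ 2 = -algebraMap k K (D : k)
  adm : Adm f D ⊤ b
  int : ∀ z : K, (∃ t : 𝓞 K, (t : K) = z) ↔ ∃ (p : 𝓞 k) (q : k), q ∈ fi f ∧
    z = algebraMap k K (p : k) + algebraMap k K q * w b δ

/-- the lattice `A f + 𝓞 k w` -/
noncomputable def Lt (f A : Ideal (𝓞 k)) (b : 𝓞 k) (δ : K) : Submodule (𝓞 k) K where
  carrier := {z | ∃ x ∈ A * f, ∃ y : 𝓞 k, z = algebraMap k K (x : k) + algebraMap k K (y : k) * w b δ}
  zero_mem' := ⟨0, Ideal.zero_mem _, 0, by simp⟩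
  add_mem' := by
    rintro z z' ⟨x, hx, y, rfl⟩ ⟨x', hx', y', rfl⟩
    refine ⟨x + x', Ideal.add_mem _ hx hx', y + y', ?_⟩
    rw [cadd, cadd]
    ring
  smul_mem' := by
    rintro c z ⟨x, hx, y, rfl⟩
    refine ⟨c * x, Ideal.mul_mem_left _ _ hx, c * y, ?_⟩
    rw [Algebra.smul_def, IsScalarTower.algebraMap_apply (𝓞 k) k K, cmul, cmul]
    change algebraMap k K (c : k) * _ = _
    ring

/-- the ideal `A + f⁻¹ w` -/
noncomputable def Id (f A : Ideal (𝓞 k)) (b : 𝓞 k) (δ : K) : Ideal (𝓞 K) :=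
  A.map (algebraMap (𝓞 k) (𝓞 K)) ⊔
    Ideal.span {z : 𝓞 K | ∃ q ∈ fi f, (z : K) = algebraMap k K q * w b δ}

/-- the extension of an ideal of `k` -/
noncomputable def ext (I : (Ideal (𝓞 k))⁰) : (Ideal (𝓞 K))⁰ :=
  ⟨(I : Ideal (𝓞 k)).map (algebraMap (𝓞 k) (𝓞 K)), by
    rw [mem_nonZeroDivisors_iff_ne_zero]
    intro h
    have h' : (I : Ideal (𝓞 k)).map (algebraMap (𝓞 k) (𝓞 K)) = ⊥ := h
    rw [Ideal.map_eq_bot_iff_of_injective (FaithfulSMul.algebraMap_injective (𝓞 k) (𝓞 K))] at h'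
    exact nonZeroDivisors.ne_zero I.2 h'⟩

variable (k K)

/-- the classes of the ideals of `k` -/
noncomputable def Hk : Subgroup (ClassGroup (𝓞 K)) :=
  Subgroup.closure (Set.range fun I : (Ideal (𝓞 k))⁰ => ClassGroup.mk0 (ext (K := K) I))

/-- the class group of `K` modulo the ideals of `k` -/
abbrev Gk : Type := ClassGroup (𝓞 K) ⧸ Hk k K

/-- the class modulo the ideals of `k` -/
noncomputable def cl (I : (Ideal (𝓞 K))⁰) : Gk k K := QuotientGroup.mk (ClassGroup.mk0 I)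

/-- the class group characters which are trivial on the ideals of `k` -/
def Chk : Set (ClassGroup (𝓞 K) →* ℂˣ) :=
  {ψ | ∀ I : (Ideal (𝓞 k))⁰, ψ (ClassGroup.mk0 (ext I)) = 1}

/-- `K` has no units and no principal ideals coming from `k` other than those of `k` -/
def Trv : Prop :=
  ∀ (x y : 𝓞 K) (a a' : Ideal (𝓞 k)), x ≠ 0 → y ≠ 0 → a ≠ ⊥ → a' ≠ ⊥ →
    Ideal.span {x} * a.map (algebraMap (𝓞 k) (𝓞 K)) =
      Ideal.span {y} * a'.map (algebraMap (𝓞 k) (𝓞 K)) →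
    ∃ p q : 𝓞 k, p ≠ 0 ∧ q ≠ 0 ∧
      algebraMap (𝓞 k) (𝓞 K) q * x = algebraMap (𝓞 k) (𝓞 K) p * y

end Field

end Pool.Agent.H95.NV
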