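import Pool.Agent.H95.NV.TDefs
import Pool.Agent.H61.NVK.Base

/-!
# Nonvanishing over totally real fields, part A: targets, first group (algebra)
-/

set_option autoImplicit false

open NumberField
open scoped nonZeroDivisors

namespace Pool.Agent.H95.NV

open Pool.Agent.H65.CM4 (Pl rv nm dk dg V2 Fo)
open Pool.Agent.H31.CN (IsLf)
open Pool.Agent.H95.CM (Nr)
open Pool.Agent.H61.NVK (ci cr Lb nf)

/-! ### The fields -/

/-- (EXK) the field exists. -/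
def T_EXK : Prop :=
  ∀ (k : Type) [Field k] [NumberField k] [IsTotallyReal k] (D : 𝓞 k), TP D →
    ∃ (K : Type) (_ : Field K) (_ : NumberField K) (_ : Algebra k K)
      (_ : Algebra.IsQuadraticExtension k K) (δ : K), δ ^ 2 = -algebraMap k K (D : k)

/-- (TCX) the field is totally complex. -/
def T_TCX : Prop :=
  ∀ (k K : Type) [Field k] [NumberField k] [IsTotallyReal k] [Field K] [NumberField K]
    [Algebra k K] (D : 𝓞 k) (δ : K), TP D → δ ^ 2 = -algebraMap k K (D : k) → IsTotallyComplex K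

/-- (COO) the coordinates. -/
def T_COO : Prop :=
  ∀ (k K : Type) [Field k] [NumberField k] [IsTotallyReal k] [Field K] [NumberField K]
    [Algebra k K] [Algebra.IsQuadraticExtension k K] (D b : 𝓞 k) (δ : K), TP D →
    δ ^ 2 = -algebraMap k K (D : k) →
    (∀ z : K, ∃ x y : k, z = algebraMap k K x + algebraMap k K y * w b δ) ∧
    (∀ x y : k, algebraMap k K x + algebraMap k K y * w b δ = 0 → x = 0 ∧ y = 0) ∧
    (∀ x y : k, Algebra.norm k (algebraMap k K x + algebraMap k K y * w b δ) =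
      x ^ 2 + (b : k) * x * y + ((b : k) ^ 2 + (D : k)) / 4 * y ^ 2) ∧
    ∀ x y : k, Algebra.trace k K (algebraMap k K x + algebraMap k K y * w b δ) =
      2 * x + (b : k) * y

/-- (FIN) the inverse of an ideal. -/
def T_FNV : Prop :=
  ∀ (k : Type) [Field k] [NumberField k] (f : Ideal (𝓞 k)), f ≠ ⊥ →
    (∃ (s : Finset ((𝓞 k) × k)), (∀ x ∈ s, x.1 ∈ f ∧ x.2 ∈ fi f) ∧
      ∑ x ∈ s, (x.1 : k) * x.2 = 1) ∧
    (∀ q ∈ fi f, ∀ q' ∈ fi f, q + q' ∈ fi f) ∧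
    (∀ (c : 𝓞 k), ∀ q ∈ fi f, (c : k) * q ∈ fi f) ∧ (∃ q ∈ fi f, q ≠ 0) ∧ (1 : k) ∈ fi f ∧
    ∀ (A : Ideal (𝓞 k)) (x : k), (∀ q ∈ fi f, ∃ t ∈ A, (t : k) = q * x) ↔
      ∃ t ∈ A * f, (t : k) = x

/-- (KDX) every CM quadratic extension has such data. -/
def T_KDX : Prop :=
  ∀ (k K : Type) [Field k] [NumberField k] [IsTotallyReal k] [Field K] [NumberField K]
    [IsTotallyComplex K] [Algebra k K] [Algebra.IsQuadraticExtension k K]
    (R : Finset (Ideal (𝓞 k))), Reps R → ∃ f ∈ R, ∃ (D b : 𝓞 k) (δ : K), KD f D b δ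

/-- (KDU) the data are unique. -/
def T_KDU : Prop :=
  ∀ (k K : Type) [Field k] [NumberField k] [IsTotallyReal k] [Field K] [NumberField K]
    [Algebra k K] [Algebra.IsQuadraticExtension k K] (f f' : Ideal (𝓞 k)) (D D' b b' : 𝓞 k)
    (δ δ' : K), KD f D b δ → KD f' D' b' δ' → Eqc f f' ∧
    (f = f' → ∃ u : (𝓞 k)ˣ, δ' = algebraMap k K ((u : 𝓞 k) : k) * δ ∧ D' = (u : 𝓞 k) ^ 2 * D)

/-- (KDM) the data can be changed by units. -/
def T_KDM : Prop :=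
  ∀ (k K : Type) [Field k] [NumberField k] [IsTotallyReal k] [Field K] [NumberField K]
    [Algebra k K] [Algebra.IsQuadraticExtension k K] (f : Ideal (𝓞 k)) (D b : 𝓞 k) (δ : K)
    (u : (𝓞 k)ˣ), KD f D b δ →
    KD f ((u : 𝓞 k) ^ 2 * D) ((u : 𝓞 k) * b) (algebraMap k K ((u : 𝓞 k) : k) * δ) ∧
    ∀ b' : 𝓞 k, Adm f D ⊤ b' → KD f D b' δ

/-- (KDT) isomorphic fields have the same data, and conversely. -/
def T_KDT : Prop :=
  ∀ (k K K' : Type) [Field k] [NumberField k] [IsTotallyReal k] [Field K] [NumberField K]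
    [Algebra k K] [Algebra.IsQuadraticExtension k K] [Field K'] [NumberField K']
    [Algebra k K'] [Algebra.IsQuadraticExtension k K'] (f : Ideal (𝓞 k)) (D b b' : 𝓞 k)
    (δ : K), KD f D b δ → (∀ e : K ≃ₐ[k] K', KD f D b (e δ)) ∧
    ∀ δ' : K', KD f D b' δ' → Nonempty (K ≃ₐ[k] K')

/-- (KDF) the discriminant of a field is fundamental. -/
def T_KDF : Prop :=
  ∀ (k K : Type) [Field k] [NumberField k] [IsTotallyReal k] [Field K] [NumberField K]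
    [Algebra k K] [Algebra.IsQuadraticExtension k K] (f : Ideal (𝓞 k)) (D b : 𝓞 k) (δ : K),
    KD f D b δ → Fun f D

/-- (FUN) a fundamental discriminant is the discriminant of a field. -/
def T_FUN : Prop :=
  ∀ (k K : Type) [Field k] [NumberField k] [IsTotallyReal k] [Field K] [NumberField K]
    [Algebra k K] [Algebra.IsQuadraticExtension k K] (f : Ideal (𝓞 k)) (D : 𝓞 k) (δ : K),
    TP D → δ ^ 2 = -algebraMap k K (D : k) → Fun f D → ∃ b : 𝓞 k, KD f D b δ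

/-- (DSC) the discriminant. -/
def T_DSC : Prop :=
  ∀ (k K : Type) [Field k] [NumberField k] [IsTotallyReal k] [Field K] [NumberField K]
    [Algebra k K] [Algebra.IsQuadraticExtension k K] (f : Ideal (𝓞 k)) (D b : 𝓞 k) (δ : K),
    KD f D b δ → |(discr K : ℝ)| * nm f ^ 2 = (dk k : ℝ) ^ 2 * ∏ v : Pl k, rv v (D : k)

/-- (SMV) the integers of small norm of an ideal of `k` are in `k`. -/
def T_SMV : Prop :=
  ∀ (k K : Type) [Field k] [NumberField k] [IsTotallyReal k] [Field K] [NumberField K]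
    [Algebra k K] [Algebra.IsQuadraticExtension k K] (f : Ideal (𝓞 k)) (D b : 𝓞 k) (δ : K),
    KD f D b δ → ∀ (a : Ideal (𝓞 k)) (z : 𝓞 K), z ∈ a.map (algebraMap (𝓞 k) (𝓞 K)) →
    4 ^ dg k * (dk k : ℝ) ^ 2 * nm (Ideal.span {z}) < |(discr K : ℝ)| * nm a ^ 2 →
    ∃ x ∈ a, z = algebraMap (𝓞 k) (𝓞 K) x

/-- (TRV) all but finitely many `K` are trivial. -/
def T_TRV : Prop :=
  ∀ (k : Type) [Field k] [NumberField k] [IsTotallyReal k], ∃ X : ℝ, 0 < X ∧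
    ∀ (K : Type) [Field K] [NumberField K] [IsTotallyComplex K] [Algebra k K]
      [Algebra.IsQuadraticExtension k K], X < |(discr K : ℝ)| → Trv k K

/-! ### The ideals -/

/-- (IDC) the elements of the ideals. -/
def T_IDC : Prop :=
  ∀ (k K : Type) [Field k] [NumberField k] [IsTotallyReal k] [Field K] [NumberField K]
    [Algebra k K] [Algebra.IsQuadraticExtension k K] (f : Ideal (𝓞 k)) (D b₀ : 𝓞 k) (δ : K),
    KD f D b₀ δ → ∀ (A : Ideal (𝓞 k)) (b : 𝓞 k), Adm f D A b →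
    (∀ z : 𝓞 K, z ∈ Id f A b δ ↔ ∃ x ∈ A, ∃ q ∈ fi f,
      (z : K) = algebraMap k K (x : k) + algebraMap k K q * w b δ) ∧
    (∀ t ∈ A * f, Id f A (b + 2 * t) δ = Id f A b δ ∧ Lt f A (b + 2 * t) δ = Lt f A b δ ∧
      Adm f D A (b + 2 * t)) ∧
    (∀ z : K, z ∈ Lt f A b δ ↔ ∃ t ∈ f.map (algebraMap (𝓞 k) (𝓞 K)) * Id f A b δ, (t : K) = z) ∧
    Id f ⊤ b₀ δ = ⊤ ∧ Id f A b δ ≠ ⊥

/-- (IDR) the norm of the ideals. -/
def T_IDR : Prop :=
  ∀ (k K : Type) [Field k] [NumberField k] [IsTotallyReal k] [Field K] [NumberField K]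
    [Algebra k K] [Algebra.IsQuadraticExtension k K] (f : Ideal (𝓞 k)) (D b₀ : 𝓞 k) (δ : K),
    KD f D b₀ δ → ∀ (A : Ideal (𝓞 k)) (b : 𝓞 k), Adm f D A b →
    Ideal.relNorm (𝓞 k) (Id f A b δ) = A ∧
    ∀ e : Ideal (𝓞 k), Id f A b δ ≤ e.map (algebraMap (𝓞 k) (𝓞 K)) → e = ⊤

/-- (IDN) different pairs give different ideals. -/
def T_IDN : Prop :=
  ∀ (k K : Type) [Field k] [NumberField k] [IsTotallyReal k] [Field K] [NumberField K]
    [Algebra k K] [Algebra.IsQuadraticExtension k K] (f : Ideal (𝓞 k)) (D b₀ : 𝓞 k) (δ : K),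
    KD f D b₀ δ → ∀ (e e' A A' : Ideal (𝓞 k)) (b b' : 𝓞 k), e ≠ ⊥ → e' ≠ ⊥ → Adm f D A b →
    Adm f D A' b' → e.map (algebraMap (𝓞 k) (𝓞 K)) * Id f A b δ =
      e'.map (algebraMap (𝓞 k) (𝓞 K)) * Id f A' b' δ →
    e = e' ∧ A = A' ∧ ∃ t ∈ A * f, b' = b + 2 * t

/-- (IDX) all ideals. -/
def T_IDX : Prop :=
  ∀ (k K : Type) [Field k] [NumberField k] [IsTotallyReal k] [Field K] [NumberField K]
    [Algebra k K] [Algebra.IsQuadraticExtension k K] (f : Ideal (𝓞 k)) (D b₀ : 𝓞 k) (δ : K),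
    KD f D b₀ δ → ∀ J : Ideal (𝓞 K), J ≠ ⊥ → ∃ (e A : Ideal (𝓞 k)) (b : 𝓞 k), e ≠ ⊥ ∧
      Adm f D A b ∧ J = e.map (algebraMap (𝓞 k) (𝓞 K)) * Id f A b δ

/-- (HEC) the products with the prime ideals of degree one. -/
def T_HEC : Prop :=
  ∀ (k K : Type) [Field k] [NumberField k] [IsTotallyReal k] [Field K] [NumberField K]
    [Algebra k K] [Algebra.IsQuadraticExtension k K] (f : Ideal (𝓞 k)) (D b₀ : 𝓞 k) (δ : K),
    KD f D b₀ δ → ∀ (A P : Ideal (𝓞 k)) (b : 𝓞 k), Adm f D A b → P.IsPrime → P ≠ ⊥ →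
    ∀ (S : Finset (𝓞 k)), (∀ j ∈ S, j ∈ A * f ∧ Adm f D (P * A) (b + 2 * j)) →
      (∀ j ∈ S, ∀ j' ∈ S, j - j' ∈ P * A * f → j = j') →
      (∀ j ∈ A * f, Adm f D (P * A) (b + 2 * j) → ∃ j' ∈ S, j - j' ∈ P * A * f) →
    (∀ j ∈ A * f, ∀ j' ∈ A * f, j - j' ∈ P * A * f → Adm f D (P * A) (b + 2 * j) →
      Adm f D (P * A) (b + 2 * j')) ∧
    ∀ Φ : Ideal (𝓞 K) → ℂ,
      (∀ A' : Ideal (𝓞 k), A = P * A' → Adm f D A' b ∧
        ∑ Q ∈ Nr k K P, Φ ((Q : Ideal (𝓞 K)) * Id f A b δ) =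
          Φ (P.map (algebraMap (𝓞 k) (𝓞 K)) * Id f A' b δ) +
            ∑ j ∈ S, Φ (Id f (P * A) (b + 2 * j) δ)) ∧
      (¬ P ∣ A → ∑ Q ∈ Nr k K P, Φ ((Q : Ideal (𝓞 K)) * Id f A b δ) =
        ∑ j ∈ S, Φ (Id f (P * A) (b + 2 * j) δ))

/-! ### The classes -/

/-- (HKC) the characters of the class group modulo the ideals of `k`. -/
def T_HKC : Prop :=
  ∀ (k K : Type) [Field k] [NumberField k] [Field K] [NumberField K] [Algebra k K],
    (∀ x : ClassGroup (𝓞 K), x ∈ Hk k K ↔ ∃ I : (Ideal (𝓞 k))⁰, x = ClassGroup.mk0 (ext I)) ∧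
    (Chk k K).Finite ∧ (Chk k K).ncard = Nat.card (Gk k K) ∧
    (∀ ψ ∈ Chk k K, ∃ φ : Gk k K →* ℂˣ, ∀ x, φ (QuotientGroup.mk x) = ψ x) ∧
    ∀ φ : Gk k K →* ℂˣ, ∃ ψ ∈ Chk k K, ∀ x, φ (QuotientGroup.mk x) = ψ x

/-- (EQV) the lattices of different classes are not equivalent. -/
def T_EQV : Prop :=
  ∀ (k K : Type) [Field k] [NumberField k] [IsTotallyReal k] [Field K] [NumberField K]
    [Algebra k K] [Algebra.IsQuadraticExtension k K] (f : Ideal (𝓞 k)) (D b₀ : 𝓞 k) (δ : K),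
    KD f D b₀ δ → Trv k K → ∀ (A A' : Ideal (𝓞 k)) (b b' : 𝓞 k) (I I' : (Ideal (𝓞 K))⁰),
    Adm f D A b → Adm f D A' b' → (I : Ideal (𝓞 K)) = Id f A b δ →
    (I' : Ideal (𝓞 K)) = Id f A' b' δ → ∀ (l : K) (a a' : Ideal (𝓞 k)), l ≠ 0 → a ≠ ⊥ → a' ≠ ⊥ →
    (∀ z : K, z ∈ a • Lt f A b δ ↔ l * z ∈ a' • Lt f A' b' δ) → cl k K I = cl k K I' ∧
      (Id f A b δ = Id f A' b' δ → ∃ x : k, l = algebraMap k K x)

/-- (VCL) the vectors and the integral ideals of the inverse class. -/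
def T_VCL : Prop :=
  ∀ (k K : Type) [Field k] [NumberField k] [IsTotallyReal k] [Field K] [NumberField K]
    [Algebra k K] [Algebra.IsQuadraticExtension k K] (f : Ideal (𝓞 k)) (D b₀ : 𝓞 k) (δ : K),
    KD f D b₀ δ → Trv k K → ∀ (A : Ideal (𝓞 k)) (b : 𝓞 k) (I : (Ideal (𝓞 K))⁰), Adm f D A b →
    (I : Ideal (𝓞 K)) = Id f A b δ → ∃ β : ClassGroup (𝓞 k) → V2 k → (Ideal (𝓞 K))⁰,
      (∀ (c : ClassGroup (𝓞 k)) (u : V2 k), u ∈ Lb (ci c) (A * f) → u ∈ Fo k →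
        cl k K (β c u) = (cl k K I)⁻¹ ∧ nm (β c u : Ideal (𝓞 K)) =
          nf (ci c) A f (fun v => rv v (b : k)) (fun v => rv v (D : k)) u ∧
        ∀ x : 𝓞 K, (x : K) = algebraMap k K (u.1 : k) + algebraMap k K (u.2 : k) * w b δ →
          Ideal.span {x} = (β c u : Ideal (𝓞 K)) *
            ((ci c * f).map (algebraMap (𝓞 k) (𝓞 K)) * I)) ∧
      ∀ J : (Ideal (𝓞 K))⁰, cl k K J = (cl k K I)⁻¹ → ∃! p : ClassGroup (𝓞 k) × V2 k,
        p.2 ∈ Lb (ci p.1) (A * f) ∧ p.2 ∈ Fo k ∧ β p.1 p.2 = J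

/-- (REP) the ideals `ci c` are representatives. -/
def T_REP : Prop :=
  ∀ (k : Type) [Field k] [NumberField k], (∃ R : Finset (Ideal (𝓞 k)), Reps R ∧
      ∀ f : Ideal (𝓞 k), f ∈ R ↔ ∃ c : ClassGroup (𝓞 k), f = ci c) ∧
    (∀ c c' : ClassGroup (𝓞 k), Eqc (ci c) (ci c') → c = c') ∧
    ∀ f f' : Ideal (𝓞 k), f ≠ ⊥ → f' ≠ ⊥ →
      (Eqc f f' ↔ ∃ q : k, q ≠ 0 ∧ ∀ x : k, (∃ t ∈ f', (t : k) = x) ↔ ∃ t ∈ f, (t : k) = q * x)

end Pool.Agent.H95.NV
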