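import Pool.Agent.H95.NV.Targets1
import Pool.Agent.H89.NV.Iface

/-!
# Nonvanishing over totally real fields, part A: targets, second group (one field)
-/

set_option autoImplicit false

open NumberField
open scoped nonZeroDivisors

namespace Pool.Agent.H95.NV

open Pool.Agent.H65.CM4 (Pl rv nm dk dg V2 Fo)
open Pool.Agent.H31.CN (IsLf NV)
open Pool.Agent.H95.CM (Nr)
open Pool.Agent.H61.NVK (ci cr Lb nf Vk zf)
open Pool.Agent.H89.NV (PrI np nS idS ni q4 Dis Fnd good rts nuP nu Zc Uf CK Lam hom Ineq em tp sd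
  TrK prp)

/-! ### The notations of the other parts -/

/-- (BRA) the two notations for discriminants. -/
def T_BRA : Prop :=
  ∀ (k : Type) [Field k] [NumberField k],
    (∀ (I : Ideal (𝓞 k)) (x : 𝓞 k), x ∈ ni k 4 * I ↔ ∃ c ∈ I, 4 * c = x) ∧
    (∀ c : 𝓞 k, q4 (4 * c) = c) ∧
    (∀ (f A : Ideal (𝓞 k)) (D b : 𝓞 k), A ≠ ⊥ →
      (Adm f D A b ↔ b ∈ f ∧ b ^ 2 + D ∈ ni k 4 * (A * f ^ 2))) ∧
    (∀ (f : Ideal (𝓞 k)) (D : 𝓞 k), Dis f D ↔ Val f D) ∧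
    ∀ (f : Ideal (𝓞 k)) (D : 𝓞 k), f ≠ ⊥ → (Fnd f D ↔ Fun f D)

/-- (BRK) the two notations for lattices. -/
def T_BRK : Prop :=
  ∀ (k K : Type) [Field k] [NumberField k] [IsTotallyReal k] [Field K] [NumberField K]
    [Algebra k K] (D : 𝓞 k),
    (∀ h : CK D K, Algebra.IsQuadraticExtension k K ∧ h.s ^ 2 = -algebraMap k K (D : k) ∧
      (∀ x : K, h.im x = 0 ↔ ∃ t : k, x = algebraMap k K t) ∧
      ∀ (f A : Ideal (𝓞 k)) (b : 𝓞 k) (z : K), z ∈ Lam h f A b ↔ z ∈ Lt f A b h.s) ∧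
    (tp D → Algebra.IsQuadraticExtension k K → ∀ δ : K, δ ^ 2 = -algebraMap k K (D : k) →
      ∃ h : CK D K, h.s = δ)

/-- (TRA) trivial automorphisms. -/
def T_TRA : Prop :=
  ∀ (k : Type) [Field k] [NumberField k] [IsTotallyReal k], Pool.Agent.H89.NV.T_AUT k →
    ∀ (K : Type) [Field K] [NumberField K] [Algebra k K] (f : Ideal (𝓞 k)) (D b : 𝓞 k)
      (h : CK D K), f ≠ ⊥ → tp D → Fnd f D → b ∈ f → b ^ 2 + D ∈ ni k 4 * f ^ 2 →
      KD f D b h.s ∧ (2 ^ dg k < sd f (em D) → Trv k K)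

/-- (INQ) the forms of different classes are inequivalent. -/
def T_INQ : Prop :=
  ∀ (k K : Type) [Field k] [NumberField k] [IsTotallyReal k] [Field K] [NumberField K]
    [Algebra k K] (f : Ideal (𝓞 k)) (D b₀ : 𝓞 k) (h : CK D K), KD f D b₀ h.s → Trv k K →
    ∀ (ι : Type) (A : ι → Ideal (𝓞 k)) (b : ι → 𝓞 k) (I : ι → (Ideal (𝓞 K))⁰),
      (∀ i, Adm f D (A i) (b i) ∧ (I i : Ideal (𝓞 K)) = Id f (A i) (b i) h.s) →
      (∀ i j, cl k K (I i) = cl k K (I j) → i = j) → Ineq h f A b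

/-! ### Sums over ideals -/

open Classical in
/-- the number of the divisors of `J` of relative norm `m` -/
noncomputable def dvn (k : Type) {K : Type} [Field k] [NumberField k] [Field K] [NumberField K]
    [Algebra k K] (m : Ideal (𝓞 k)) (J : Ideal (𝓞 K)) : ℕ :=
  ((Nr k K m).filter (fun Q => (Q : Ideal (𝓞 K)) ∣ J)).card

/-- (NUP) the local numbers count the prime divisors. -/
def T_NUP : Prop :=
  ∀ (k K : Type) [Field k] [NumberField k] [IsTotallyReal k] [Field K] [NumberField K]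
    [Algebra k K] [Algebra.IsQuadraticExtension k K] (f : Ideal (𝓞 k)) (D b₀ : 𝓞 k) (δ : K),
    KD f D b₀ δ → ∀ (A : Ideal (𝓞 k)) (b : 𝓞 k), Adm f D A b → ∀ (P : PrI k)
      (a : Ideal (𝓞 k)) (u : V2 k) (x : 𝓞 K) (J : Ideal (𝓞 K)), a ≠ ⊥ → u ∈ Lb a (A * f) →
      u ≠ 0 → (x : K) = algebraMap k K (u.1 : k) + algebraMap k K (u.2 : k) * w b δ →
      Ideal.span {x} = J * ((a * f).map (algebraMap (𝓞 k) (𝓞 K)) * Id f A b δ) →
      nuP f P.1 a A b (q4 (b ^ 2 + D)) u = dvn k P.1 J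

/-- (NUM) divisors of squarefree norm. -/
def T_NUM : Prop :=
  ∀ (k K : Type) [Field k] [NumberField k] [Field K] [NumberField K] [Algebra k K]
    (J : Ideal (𝓞 K)) (m : Finset (PrI k)), J ≠ ⊥ →
    dvn k (idS m) J = ∏ P ∈ m, dvn k P.1 J

/-- (BIJ) the vectors and the integral ideals of the inverse class. -/
def T_BIJ : Prop :=
  ∀ (k K : Type) [Field k] [NumberField k] [IsTotallyReal k] [Field K] [NumberField K]
    [Algebra k K] [Algebra.IsQuadraticExtension k K] (f : Ideal (𝓞 k)) (D b₀ : 𝓞 k) (δ : K),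
    KD f D b₀ δ → Trv k K → ∀ (A : Ideal (𝓞 k)) (b : 𝓞 k) (I : (Ideal (𝓞 K))⁰), Adm f D A b →
    (I : Ideal (𝓞 K)) = Id f A b δ →
    ∃ e : {p : ClassGroup (𝓞 k) × V2 k // p.2 ∈ Lb (ci p.1) (A * f) ∧ p.2 ∈ Fo k} ≃
        {J : (Ideal (𝓞 K))⁰ // cl k K J = (cl k K I)⁻¹},
      (∀ p, nm ((e p).1 : Ideal (𝓞 K)) = nf (ci p.1.1) A f (em b) (em D) p.1.2) ∧
      ∀ p m, nu f m (ci p.1.1) A b (q4 (b ^ 2 + D)) p.1.2 =
        dvn k (idS m) ((e p).1 : Ideal (𝓞 K))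

/-- (VKD) the decay of the cut-off function. -/
def T_VKD (k : Type) [Field k] [NumberField k] [IsTotallyReal k] : Prop :=
  ∃ C : ℝ, ∀ x : ℝ, 0 < x → |Vk k x| ≤ C / (x * Real.sqrt x)

/-- (VKE) the decay of the cut-off function. -/
def T_VKE : Prop := ∀ (k : Type) [Field k] [NumberField k] [IsTotallyReal k], T_VKD k

/-- (SIJ) the ideals: convergence. -/
def T_SIJ : Prop :=
  ∀ (K : Type) [Field K] [NumberField K],
    Summable fun J : (Ideal (𝓞 K))⁰ => 1 / nm (J : Ideal (𝓞 K)) ^ 2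

/-- the term of the mollified central value -/
noncomputable def zt (k : Type) {K : Type} [Field k] [NumberField k] [IsTotallyReal k] [Field K]
    [NumberField K] [Algebra k K] (S : Finset (Finset (PrI k))) (c : Finset (PrI k) → ℝ) (y : ℝ)
    (J : Ideal (𝓞 K)) : ℝ :=
  (∑ m ∈ S, c m * (2 * Vk k (nm J / (nS m * y))) * dvn k (idS m) J) / Real.sqrt (nm J)

open Classical in
/-- (ZSJ) the central values as sums over the ideals of a class. -/
def T_ZSJ : Prop :=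
  ∀ (k : Type) [Field k] [NumberField k] [IsTotallyReal k], T_VKD k →
    ∀ (K : Type) [Field K] [NumberField K] [Algebra k K] [Algebra.IsQuadraticExtension k K],
    (∀ (S : Finset (Finset (PrI k))) (c : Finset (PrI k) → ℝ) (y : ℝ), 0 < y →
      Summable fun J : (Ideal (𝓞 K))⁰ => zt k S c y (J : Ideal (𝓞 K))) ∧
    ∀ (f : Ideal (𝓞 k)) (D b₀ : 𝓞 k) (δ : K),
    KD f D b₀ δ → Trv k K → ∀ (A : Ideal (𝓞 k)) (b : 𝓞 k) (I : (Ideal (𝓞 K))⁰), Adm f D A b →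
    (I : Ideal (𝓞 K)) = Id f A b δ →
    (∀ (S : Finset (Finset (PrI k))) (c : Finset (PrI k) → ℝ),
      HasSum (fun J : (Ideal (𝓞 K))⁰ => if cl k K J = (cl k K I)⁻¹ then
        zt k S c (sd f (em D)) (J : Ideal (𝓞 K)) else 0) (Zc f S c A b D)) ∧
    zf A f (em b) (em D) = Zc f {∅} (fun _ => 1) A b D

/-- a form for every class -/
structure Fam (k K : Type) [Field k] [NumberField k] [IsTotallyReal k] [Field K] [NumberField K]
    [Algebra k K] (f : Ideal (𝓞 k)) (D : 𝓞 k) (δ : K) (A : Gk k K → Ideal (𝓞 k))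
    (b : Gk k K → 𝓞 k) (I : Gk k K → (Ideal (𝓞 K))⁰) : Prop where
  adm : ∀ x, Adm f D (A x) (b x)
  ide : ∀ x, (I x : Ideal (𝓞 K)) = Id f (A x) (b x) δ
  cls : ∀ x, cl k K (I x) = x⁻¹

/-- (FMX) there are such forms. -/
def T_FMX : Prop :=
  ∀ (k K : Type) [Field k] [NumberField k] [IsTotallyReal k] [Field K] [NumberField K]
    [Algebra k K] [Algebra.IsQuadraticExtension k K] (f : Ideal (𝓞 k)) (D b₀ : 𝓞 k) (δ : K),
    KD f D b₀ δ → ∃ (A : Gk k K → Ideal (𝓞 k)) (b : Gk k K → 𝓞 k) (I : Gk k K → (Ideal (𝓞 K))⁰),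
      Fam k K f D δ A b I ∧ A 1 = ⊤ ∧ b 1 = b₀

/-- (LFX) the `L`-function. -/
def T_LFX : Prop :=
  ∀ (k : Type) [Field k] [NumberField k] [IsTotallyReal k], Pool.Agent.H89.NV.T_EPS k →
    ∀ (K : Type) [Field K] [NumberField K] [Algebra k K] [Algebra.IsQuadraticExtension k K]
      [Fintype (Gk k K)] (f : Ideal (𝓞 k)) (D b₀ : 𝓞 k) (δ : K) (A : Gk k K → Ideal (𝓞 k))
      (b : Gk k K → 𝓞 k) (I : Gk k K → (Ideal (𝓞 K))⁰), KD f D b₀ δ → Trv k K →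
      Fam k K f D δ A b I → ∀ (ψ : ClassGroup (𝓞 K) →* ℂˣ) (φ : Gk k K →* ℂˣ),
      (∀ x, φ (QuotientGroup.mk x) = ψ x) → ∃ F : ℂ → ℂ, IsLf K ψ F ∧
        F (1 / 2) = ∑ x, ((φ x : ℂˣ) : ℂ) * ((zf (A x) f (em (b x)) (em D) : ℝ) : ℂ)

/-- (ZVN) if the central value vanishes then also the mollified one. -/
def T_ZVN : Prop :=
  ∀ (k : Type) [Field k] [NumberField k] [IsTotallyReal k], Pool.Agent.H89.NV.T_EPS k → T_VKD k →
    ∀ (K : Type) [Field K] [NumberField K] [Algebra k K] [Algebra.IsQuadraticExtension k K]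
      [Fintype (Gk k K)] (f : Ideal (𝓞 k)) (D b₀ : 𝓞 k) (δ : K) (A : Gk k K → Ideal (𝓞 k))
      (b : Gk k K → 𝓞 k) (I : Gk k K → (Ideal (𝓞 K))⁰), KD f D b₀ δ → Trv k K →
      Fam k K f D δ A b I → ∀ (ψ : ClassGroup (𝓞 K) →* ℂˣ) (φ : Gk k K →* ℂˣ),
      (∀ x, φ (QuotientGroup.mk x) = ψ x) → ¬ NV K ψ →
      ∀ (S : Finset (Finset (PrI k))) (c : Finset (PrI k) → ℝ),
        ∑ x, ((φ x : ℂˣ) : ℂ) * ((Zc f S c (A x) (b x) D : ℝ) : ℂ) = 0

/-- (CHC) the characters trivial on `k`. -/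
def T_CHC : Prop :=
  ∀ (k K : Type) [Field k] [NumberField k] [Field K] [NumberField K] [Algebra k K],
    Finite (Gk k K) ∧ Finite (ClassGroup (𝓞 K) →* ℂˣ) ∧
    ∃ e : (Gk k K →* ℂˣ) ≃ {ψ : ClassGroup (𝓞 K) →* ℂˣ // TrK k K ψ},
      (∀ φ x, φ (QuotientGroup.mk x) = (e φ).1 x) ∧
      (∀ φ, φ * φ = 1 ↔ (e φ).1 * (e φ).1 = 1) ∧
      Nat.card {ψ : ClassGroup (𝓞 K) →* ℂˣ // TrK k K ψ} = Nat.card (Gk k K)

/-- (PRO) the proportion for one field. -/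
def T_PRA : Prop :=
  ∀ (k : Type) [Field k] [NumberField k] [IsTotallyReal k], Pool.Agent.H89.NV.T_UNF k →
    Pool.Agent.H89.NV.T_AUT k → Pool.Agent.H89.NV.T_EPS k → T_VKD k → Pool.Agent.H89.NV.T_PRO k

end Pool.Agent.H95.NV
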