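import Pool.Agent.H95.NV.Targets2

/-!
# Nonvanishing over totally real fields, part A: targets, third group (the family)
-/

set_option autoImplicit false

open MeasureTheory Set Filter NumberField
open scoped Real nonZeroDivisors

namespace Pool.Agent.H95.NV

open Pool.Agent.H65.CM4 (Pl rv nm dk dg V2 Fo)
open Pool.Agent.H31.CN (IsLf NV Mt)
open Pool.Agent.H61.NVK (ci cr Lb nf Vk zf)
open Pool.Agent.H89.NV (PrI np nS idS ni q4 Dis Fnd good bD Rs CK em tp sd TrK prp PM qN dR kf GW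
  Z1 S2 T_UNF T_AUT T_PRO T_SM2 T_FM1 T_NFD T_CRR T_CNT T_PUN)

section Defs

variable (k : Type) [Field k] [NumberField k]

/-- the proportion of the real characters among the characters trivial on `k` -/
noncomputable def rcp (K : Type) [Field K] [NumberField K] [Algebra k K] : ℝ :=
  (Nat.card {ψ : ClassGroup (𝓞 K) →* ℂˣ // TrK k K ψ ∧ ψ * ψ = 1} : ℝ) /
    Nat.card {ψ : ClassGroup (𝓞 K) →* ℂˣ // TrK k K ψ}

/-- the `L`-function of `ψ` is entire and not zero at `1/2` -/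
def NVE (K : Type) [Field K] [NumberField K] (ψ : ClassGroup (𝓞 K) →* ℂˣ) : Prop :=
  ∃ Λ : ℂ → ℂ, Differentiable ℂ Λ ∧ (∀ s : ℂ, 1 < s.re →
    HasSum (fun I : (Ideal (𝓞 K))⁰ => ((ψ (ClassGroup.mk0 I) : ℂˣ) : ℂ) *
      (Ideal.absNorm (I : Ideal (𝓞 K)) : ℂ) ^ (-s)) (Λ s)) ∧ Λ (1 / 2) ≠ 0

/-- the proportion in the theorem -/
noncomputable def prN (K : Type) [Field K] [NumberField K] [Algebra k K] : ℝ :=
  (Nat.card {ψ : ClassGroup (𝓞 K) →* ℂˣ // TrK k K ψ ∧ ψ * ψ ≠ 1 ∧ NVE K ψ} : ℝ) /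
    Nat.card {ψ : ClassGroup (𝓞 K) →* ℂˣ // TrK k K ψ}

/-- `P` splits in the field of discriminant `D` -/
def spl {k : Type} [Field k] [NumberField k] (f : Ideal (𝓞 k)) (P : PrI k) (D : 𝓞 k) : Prop :=
  (∃ j ∈ f, j ^ 2 + D ∈ P.1 * f ^ 2) ∧ D ∉ P.1 * f ^ 2

/-- a complete list of the CM quadratic extensions of `k` of absolute discriminant at most `X` -/
structure CL (X : ℝ) (ι : Type) (K : ι → Type) [∀ i, Field (K i)] [∀ i, NumberField (K i)]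
    [∀ i, Algebra k (K i)] : Prop where
  quad : ∀ i, Algebra.IsQuadraticExtension k (K i)
  cm : ∀ i, IsTotallyComplex (K i)
  le : ∀ i, |(discr (K i) : ℝ)| ≤ X
  inj : ∀ i j, Nonempty (K i ≃ₐ[k] K j) → i = j
  all : ∀ (L : Type) [Field L] [NumberField L] [Algebra k L] [Algebra.IsQuadraticExtension k L]
    [IsTotallyComplex L], |(discr L : ℝ)| ≤ X → ∃ i, Nonempty (L ≃ₐ[k] K i)

variable [IsTotallyReal k]

/-- the absolute discriminant -/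
noncomputable def dsz (f : Ideal (𝓞 k)) (D : 𝓞 k) : ℝ :=
  (dk k : ℝ) ^ 2 * (∏ v : Pl k, rv v (D : k)) / nm f ^ 2

/-- partitions of unity for the squares of the units, as in `T_PUN` -/
structure PU (Ψ : (Pl k → ℝ) → ℝ) : Prop where
  unit : ∀ u, 0 ≤ Ψ u ∧ Ψ u ≤ 1
  sum : ∀ u : Pl k → ℝ, (∀ v, 0 < u v) → ∃ s : Finset (𝓞 k), (∀ x : 𝓞 k, x ∈ s ↔
    (∃ ε : (𝓞 k)ˣ, x = (ε : 𝓞 k) ^ 2) ∧ Ψ (fun v => em x v * u v) ≠ 0) ∧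
      ∑ x ∈ s, Ψ (fun v => em x v * u v) = 1
  homg : ∀ (u : Pl k → ℝ) (t : ℝ), 0 < t → Ψ (fun v => t * u v) = Ψ u
  gw : ∀ (w : ℝ → ℝ) (α : ℝ), 0 < α → ContDiff ℝ (⊤ : ℕ∞) w →
    (∀ x, x ∉ Icc α (1 / α) → w x = 0) →
      ∃ η : ℝ, GW (k := k) η (fun u => w (∏ v, u v) * Ψ u)

open Classical in
/-- the multiplicity of the discriminant `D` -/
noncomputable def mul (Ψ : (Pl k → ℝ) → ℝ) (x : ClassGroup (𝓞 k) × 𝓞 k) : ℝ :=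
  if tp x.2 ∧ Fnd (ci x.1) x.2 then Ψ (em x.2) else 0

/-- the values of the proportion -/
def Pf (pf : 𝓞 k → ℝ) : Prop :=
  (∀ D, 0 ≤ pf D ∧ pf D ≤ 1) ∧ ∀ (f : Ideal (𝓞 k)) (D : 𝓞 k), f ≠ ⊥ → tp D → Fnd f D →
    2 ^ dg k < sd f (em D) → ∀ (P : Polynomial ℝ) (M : ℝ) (R : Finset (PrI k)),
      Z1 P M f R (bD f D) D ^ 2 ≤ pf D * S2 P M f R (bD f D) D

end Defs

/-- smooth weights on `(0, ∞)` -/
structure SW (w : ℝ → ℝ) : Prop where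
  smooth : ContDiff ℝ (⊤ : ℕ∞) w
  supp : ∃ α : ℝ, 0 < α ∧ ∀ x, x ∉ Icc α (1 / α) → w x = 0
  nonneg : ∀ x, 0 ≤ w x
  pos : ∃ x, 0 < w x

/-! ### Fields and discriminants -/

/-- (ISO) isomorphic fields. -/
def T_ISO : Prop :=
  ∀ (k K K' : Type) [Field k] [NumberField k] [Field K] [NumberField K] [Algebra k K] [Field K']
    [NumberField K'] [Algebra k K'], (K ≃ₐ[k] K') → prp k K = prp k K' ∧ rcp k K = rcp k K' ∧
      discr K = discr K' ∧ (IsTotallyComplex K → IsTotallyComplex K')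

/-- (PFX) the proportion as a function of the discriminant. -/
def T_PFX : Prop :=
  ∀ (k : Type) [Field k] [NumberField k] [IsTotallyReal k], ∃ pf τ : 𝓞 k → ℝ,
    (∀ D, 0 ≤ pf D ∧ pf D ≤ 1 ∧ 0 ≤ τ D ∧ τ D ≤ 1) ∧
    ∀ (D : 𝓞 k) (K : Type) [Field K] [NumberField K] [Algebra k K] (_ : CK D K),
      prp k K = pf D ∧ rcp k K = τ D

/-- (PFC) the values of the proportion. -/
def T_PFC : Prop :=
  ∀ (k : Type) [Field k] [NumberField k] [IsTotallyReal k], T_PRO k → ∀ pf : 𝓞 k → ℝ,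
    (∀ D, 0 ≤ pf D ∧ pf D ≤ 1) → (∀ (D : 𝓞 k) (K : Type) [Field K] [NumberField K] [Algebra k K]
      (_ : CK D K), prp k K = pf D) → Pf k pf

/-- (FSP) finitely many discriminants. -/
def T_FSP : Prop :=
  ∀ (k : Type) [Field k] [NumberField k] [IsTotallyReal k] (Ψ : (Pl k → ℝ) → ℝ), PU k Ψ →
    (∀ x, 0 ≤ mul k Ψ x ∧ (mul k Ψ x ≠ 0 → 0 < dsz k (ci x.1) x.2)) ∧
    ∀ X : ℝ, {x | mul k Ψ x ≠ 0 ∧ dsz k (ci x.1) x.2 ≤ X}.Finite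

/-- (FAM) sums over the fields and sums over the discriminants. -/
def T_FAM : Prop :=
  ∀ (k : Type) [Field k] [NumberField k] [IsTotallyReal k] (Ψ : (Pl k → ℝ) → ℝ), PU k Ψ →
    ∀ (X : ℝ) (ι : Type) [Fintype ι] (K : ι → Type) [∀ i, Field (K i)] [∀ i, NumberField (K i)]
      [∀ i, Algebra k (K i)], CL k X ι K → ∀ (q : ℝ → ℝ) (pf : 𝓞 k → ℝ) (pr : ι → ℝ),
      (∀ x, X < x → q x = 0) → (∀ i (D : 𝓞 k) (_ : CK D (K i)), pr i = pf D) →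
      ∑ i, q |(discr (K i) : ℝ)| * pr i =
        ∑' x : ClassGroup (𝓞 k) × 𝓞 k, mul k Ψ x * q (dsz k (ci x.1) x.2) * pf x.2

/-- (CLX) complete lists exist. -/
def T_CLX : Prop :=
  ∀ (k : Type) [Field k] [NumberField k] [IsTotallyReal k] (Ψ : (Pl k → ℝ) → ℝ), PU k Ψ →
    ∀ X : ℝ, ∃ (n : ℕ) (K : Fin n → Type) (_ : ∀ i, Field (K i)) (_ : ∀ i, NumberField (K i))
      (_ : ∀ i, Algebra k (K i)), CL k X (Fin n) K

/-! ### Densities -/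

open Classical in
/-- (FDN) the density of the enlarged family. -/
def T_FDN : Prop :=
  ∀ (k : Type) [Field k] [NumberField k] (f : Ideal (𝓞 k)) (R : Finset (PrI k)), f ≠ ⊥ →
    qN R ≠ ⊥ ∧ (∀ D, good f R D → D ∈ f ^ 2) ∧
    (∀ (D : 𝓞 k), ∀ y ∈ qN R * f ^ 2, (good f R (D + y) ↔ good f R D)) ∧
    (((Rs (qN R * f ^ 2)).filter (fun x => x ∈ f ^ 2 ∧ good f R x)).card : ℝ) = nm (qN R) * dR R

/-- (DRL) the densities are bounded from below. -/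
def T_DRL : Prop :=
  ∀ (k : Type) [Field k] [NumberField k], ∃ d : ℝ, 0 < d ∧ ∀ R : Finset (PrI k), d ≤ dR R

open Classical in
/-- (CGD) the number of the discriminants of the enlarged family. -/
def T_CGD : Prop :=
  ∀ (k : Type) [Field k] [NumberField k] [IsTotallyReal k], T_CNT k →
    ∀ (f : Ideal (𝓞 k)) (R : Finset (PrI k)) (G : (Pl k → ℝ) → ℝ) (η ε : ℝ), f ≠ ⊥ → GW η G →
      0 < ε → ∃ T₀ : ℝ, ∀ T : ℝ, T₀ ≤ T →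
      |(∑' D : 𝓞 k, if good f R D then G (fun v => em D v / T) else 0) -
        T ^ dg k * kf f * dR R * ∫ u, G u| ≤ ε * T ^ dg k

open Classical in
/-- (NSD) the density of the discriminants without split primes. -/
def T_NSD : Prop :=
  ∀ (k : Type) [Field k] [NumberField k] (f : Ideal (𝓞 k)) (Q : Finset (PrI k)), f ≠ ⊥ →
    (∀ P ∈ Q, (2 : 𝓞 k) ∉ P.1) →
    (∀ P ∈ Q, ∀ (D : 𝓞 k), ∀ y ∈ idS Q * f ^ 2, (spl f P (D + y) ↔ spl f P D)) ∧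
    (((Rs (idS Q * f ^ 2)).filter (fun x => x ∈ f ^ 2 ∧ ∀ P ∈ Q, ¬ spl f P x)).card : ℝ) =
      ∏ P ∈ Q, ((np P + 1) / 2)

/-- (PIF) there are infinitely many odd primes. -/
def T_PIF : Prop :=
  ∀ (k : Type) [Field k] [NumberField k] (m : ℕ), ∃ Q : Finset (PrI k), Q.card = m ∧
    ∀ P ∈ Q, (2 : 𝓞 k) ∉ P.1 ∧ 3 ≤ np P

/-! ### Real characters -/

/-- (SPP) the prime above a split prime. -/
def T_SPP : Prop :=
  ∀ (k K : Type) [Field k] [NumberField k] [IsTotallyReal k] [Field K] [NumberField K]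
    [Algebra k K] [Algebra.IsQuadraticExtension k K] (f : Ideal (𝓞 k)) (D b : 𝓞 k) (δ : K),
    KD f D b δ → ∀ P : PrI k, (2 : 𝓞 k) ∉ P.1 → spl f P D →
    ∃ p : Ideal (𝓞 K), p ≠ ⊥ ∧ Ideal.relNorm (𝓞 k) p = P.1 ∧ ∀ (j : ℕ) (e : Ideal (𝓞 k)),
      1 ≤ j → p ^ j ≠ e.map (algebraMap (𝓞 k) (𝓞 K))

/-- (ORD) few real characters if there is a small split prime. -/
def T_ORD : Prop :=
  ∀ (k K : Type) [Field k] [NumberField k] [IsTotallyReal k] [Field K] [NumberField K]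
    [Algebra k K] [Algebra.IsQuadraticExtension k K] (f : Ideal (𝓞 k)) (D b : 𝓞 k) (δ : K),
    KD f D b δ → ∀ P : PrI k, (2 : 𝓞 k) ∉ P.1 → spl f P D → ∀ J : ℕ,
    4 ^ dg k * (dk k : ℝ) ^ 2 * np P ^ (2 * J) < |(discr K : ℝ)| → (J + 1) * rcp k K ≤ 1

open Classical in
/-- (NSX) few discriminants without small split primes. -/
def T_NSX : Prop :=
  ∀ (k : Type) [Field k] [NumberField k] [IsTotallyReal k], T_CNT k →
    ∀ Ψ : (Pl k → ℝ) → ℝ, PU k Ψ → ∀ w : ℝ → ℝ, SW w → ∀ ε : ℝ, 0 < ε →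
    ∃ Q : Finset (PrI k), (∀ P ∈ Q, (2 : 𝓞 k) ∉ P.1) ∧ ∃ X₀ : ℝ, ∀ X : ℝ, X₀ ≤ X →
      ∑' x : ClassGroup (𝓞 k) × 𝓞 k, (if ∀ P ∈ Q, ¬ spl (ci x.1) P x.2 then
        mul k Ψ x * w (dsz k (ci x.1) x.2 / X) else 0) ≤ ε * X

open Classical in
/-- (TAX) few characters are real, in the mean. -/
def T_TAX : Prop :=
  ∀ (k : Type) [Field k] [NumberField k] [IsTotallyReal k], T_CNT k →
    ∀ Ψ : (Pl k → ℝ) → ℝ, PU k Ψ → ∀ C : ℝ, (∃ X₀ : ℝ, ∀ X : ℝ, X₀ ≤ X →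
      ∑' x : ClassGroup (𝓞 k) × 𝓞 k, (if dsz k (ci x.1) x.2 ≤ X then mul k Ψ x else 0) ≤ C * X) →
    ∀ τ : 𝓞 k → ℝ, (∀ D, 0 ≤ τ D ∧ τ D ≤ 1) → (∀ (D : 𝓞 k) (K : Type) [Field K] [NumberField K]
      [Algebra k K] (_ : CK D K), rcp k K = τ D) → ∀ ε : ℝ, 0 < ε →
    ∃ X₀ : ℝ, ∀ X : ℝ, X₀ ≤ X → ∑' x : ClassGroup (𝓞 k) × 𝓞 k,
      (if dsz k (ci x.1) x.2 ≤ X then mul k Ψ x * τ x.2 else 0) ≤ ε * X

/-! ### The moments -/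

/-- (ZS2) the principal form, every discriminant. -/
def T_ZS2 : Prop :=
  ∀ (k : Type) [Field k] [NumberField k] [IsTotallyReal k], T_UNF k → T_AUT k →
    (∀ D : 𝓞 k, ∃ (K : Type) (_ : Field K) (_ : Algebra k K), tp D → Nonempty (CK D K)) →
    ∀ (f : Ideal (𝓞 k)) (D b : 𝓞 k), f ≠ ⊥ → tp D → b ∈ f → b ^ 2 + D ∈ ni k 4 * f ^ 2 →
    2 ^ dg k < sd f (em D) → ∀ (P : Polynomial ℝ) (M : ℝ) (R : Finset (PrI k)),
      Z1 P M f R b D ^ 2 ≤ S2 P M f R b D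

/-- (CKE) the field exists. -/
def T_CKE : Prop :=
  ∀ (k : Type) [Field k] [NumberField k] [IsTotallyReal k] (D : 𝓞 k),
    ∃ (K : Type) (_ : Field K) (_ : Algebra k K), tp D → Nonempty (CK D K)

open Classical in
/-- (CSQ) Cauchy's inequality over the family. -/
def T_CSQ : Prop :=
  ∀ (α : Type) (s t : Finset α) (G Z S p : α → ℝ), t ⊆ s → (∀ D ∈ s, 0 ≤ G D) →
    (∀ D ∈ s, Z D ^ 2 ≤ S D) → (∀ D ∈ t, 0 ≤ p D ∧ Z D ^ 2 ≤ p D * S D) →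
    ∀ a e m : ℝ, 0 ≤ e → e ≤ a → a ≤ ∑ D ∈ s, G D * Z D → ∑ D ∈ s, G D * S D ≤ m → 0 < m →
      (∑ D ∈ s \ t, G D) * m ≤ e ^ 2 → (a - e) ^ 2 / m ≤ ∑ D ∈ t, G D * p D

open Classical in
/-- (SMF) the proportion with smooth weights, one class of `k`. -/
def T_SMF : Prop :=
  ∀ (k : Type) [Field k] [NumberField k] [IsTotallyReal k], T_SM2 k → T_FM1 k → T_NFD k →
    T_CRR k → (∀ (f : Ideal (𝓞 k)) (D b : 𝓞 k), f ≠ ⊥ → tp D → b ∈ f →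
      b ^ 2 + D ∈ ni k 4 * f ^ 2 → 2 ^ dg k < sd f (em D) →
      ∀ (P : Polynomial ℝ) (M : ℝ) (R : Finset (PrI k)), Z1 P M f R b D ^ 2 ≤ S2 P M f R b D) →
    ∀ (f : Ideal (𝓞 k)) (G : (Pl k → ℝ) → ℝ) (η ε : ℝ), f ≠ ⊥ → GW η G → (∀ u, 0 ≤ G u) →
      0 < ∫ u, G u → 0 < ε → ∃ R₀ : ℝ, ∀ R : ℝ, R₀ ≤ R → ∃ T₀ : ℝ, ∀ T : ℝ, T₀ ≤ T →
      ∀ pf : 𝓞 k → ℝ, Pf k pf →
        (19 / 27 - ε) * (T ^ dg k * kf f * dR (PM k R) * ∫ u, G u) ≤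
          ∑' D : 𝓞 k, if Fnd f D then G (fun v => em D v / T) * pf D else 0

/-- (SMX) the proportion with smooth weights. -/
def T_SMX : Prop :=
  ∀ (k : Type) [Field k] [NumberField k] [IsTotallyReal k], T_SM2 k → T_FM1 k → T_NFD k →
    T_CRR k → T_CNT k → (∀ (f : Ideal (𝓞 k)) (D b : 𝓞 k), f ≠ ⊥ → tp D → b ∈ f →
      b ^ 2 + D ∈ ni k 4 * f ^ 2 → 2 ^ dg k < sd f (em D) →
      ∀ (P : Polynomial ℝ) (M : ℝ) (R : Finset (PrI k)), Z1 P M f R b D ^ 2 ≤ S2 P M f R b D) →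
    ∀ Ψ : (Pl k → ℝ) → ℝ, PU k Ψ → ∀ w : ℝ → ℝ, SW w → ∀ ε : ℝ, 0 < ε →
    ∃ c : ℝ, 0 < c ∧ ∃ X₀ : ℝ, ∀ X : ℝ, X₀ ≤ X → ∀ pf : 𝓞 k → ℝ, Pf k pf →
      (19 / 27 - ε) * (c * X) ≤ ∑' x : ClassGroup (𝓞 k) × 𝓞 k,
        mul k Ψ x * w (dsz k (ci x.1) x.2 / X) * pf x.2 ∧
      ∑' x : ClassGroup (𝓞 k) × 𝓞 k, mul k Ψ x * w (dsz k (ci x.1) x.2 / X) ≤ (1 + ε) * (c * X)

open Classical in
/-- (SHP) from smooth to sharp weights. -/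
def T_SHP : Prop :=
  ∀ (I : Type) (m s p : I → ℝ) (θ : ℝ), 0 < θ → (∀ i, 0 ≤ m i ∧ 0 ≤ p i ∧ p i ≤ 1 ∧
      (m i ≠ 0 → 0 < s i)) → (∀ X : ℝ, {i | m i ≠ 0 ∧ s i ≤ X}.Finite) →
    (∀ w : ℝ → ℝ, SW w → ∀ ε : ℝ, 0 < ε → ∃ c : ℝ, 0 < c ∧ ∃ X₀ : ℝ, ∀ X : ℝ, X₀ ≤ X →
      (θ - ε) * (c * X) ≤ ∑' i, m i * w (s i / X) * p i ∧
      ∑' i, m i * w (s i / X) ≤ (1 + ε) * (c * X)) →
    (∃ c C X₀ : ℝ, 0 < c ∧ 0 < C ∧ ∀ X : ℝ, X₀ ≤ X →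
      c * X ≤ ∑' i, (if s i ≤ X then m i else 0) ∧ ∑' i, (if s i ≤ X then m i else 0) ≤ C * X) ∧
    ∀ ε : ℝ, 0 < ε → ∃ X₀ : ℝ, ∀ X : ℝ, X₀ ≤ X →
      (θ - ε) * ∑' i, (if s i ≤ X then m i else 0) ≤ ∑' i, (if s i ≤ X then m i * p i else 0)

/-- (PRR) the proportions. -/
def T_PRR : Prop :=
  ∀ (k K : Type) [Field k] [NumberField k] [Field K] [NumberField K] [Algebra k K]
    [Algebra.IsQuadraticExtension k K], prp k K - rcp k K ≤ prN k K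

/-- (FNL) the theorem. -/
def T_FNL : Prop :=
  ∀ (k : Type) [Field k] [NumberField k] [IsTotallyReal k],
    (∀ X : ℝ, ∃ (n : ℕ) (K : Fin n → Type) (_ : ∀ i, Field (K i)) (_ : ∀ i, NumberField (K i))
      (_ : ∀ i, Algebra k (K i)), CL k X (Fin n) K) ∧
    (∃ c C X₀ : ℝ, 0 < c ∧ 0 < C ∧ ∀ X : ℝ, X₀ ≤ X → ∀ (ι : Type) [Fintype ι] (K : ι → Type)
      [∀ i, Field (K i)] [∀ i, NumberField (K i)] [∀ i, Algebra k (K i)], CL k X ι K →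
      c * X ≤ Fintype.card ι ∧ Fintype.card ι ≤ C * X) ∧
    ∀ ε : ℝ, 0 < ε → ∃ X₀ : ℝ, ∀ X : ℝ, X₀ ≤ X → ∀ (ι : Type) [Fintype ι] (K : ι → Type)
      [∀ i, Field (K i)] [∀ i, NumberField (K i)] [∀ i, Algebra k (K i)], CL k X ι K →
      (19 / 27 - ε) * Fintype.card ι ≤ ∑ i, prN k (K i)

/-- (FNA) the assembly. -/
def T_FNA : Prop :=
  ∀ (k : Type) [Field k] [NumberField k] [IsTotallyReal k], T_UNF k → T_AUT k → T_PRO k →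
    T_SM2 k → T_FM1 k → T_NFD k → T_CRR k → T_CNT k → T_PUN k →
    (∀ X : ℝ, ∃ (n : ℕ) (K : Fin n → Type) (_ : ∀ i, Field (K i)) (_ : ∀ i, NumberField (K i))
      (_ : ∀ i, Algebra k (K i)), CL k X (Fin n) K) ∧
    (∃ c C X₀ : ℝ, 0 < c ∧ 0 < C ∧ ∀ X : ℝ, X₀ ≤ X → ∀ (ι : Type) [Fintype ι] (K : ι → Type)
      [∀ i, Field (K i)] [∀ i, NumberField (K i)] [∀ i, Algebra k (K i)], CL k X ι K →
      c * X ≤ Fintype.card ι ∧ Fintype.card ι ≤ C * X) ∧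
    ∀ ε : ℝ, 0 < ε → ∃ X₀ : ℝ, ∀ X : ℝ, X₀ ≤ X → ∀ (ι : Type) [Fintype ι] (K : ι → Type)
      [∀ i, Field (K i)] [∀ i, NumberField (K i)] [∀ i, Algebra k (K i)], CL k X ι K →
      (19 / 27 - ε) * Fintype.card ι ≤ ∑ i, prN k (K i)

end Pool.Agent.H95.NV
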