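import Pool.Agent.H95.NV.Targets3

/-!
# Nonvanishing over totally real fields, part A: targets, fourth group (irreducibility over `ℚ`)
-/

set_option autoImplicit false

open MeasureTheory Set Filter NumberField
open scoped Real nonZeroDivisors

namespace Pool.Agent.H95.NV

open Pool.Agent.H65.CM4 (Pl rv nm dk dg)
open Pool.Agent.H61.NVK (ci cr)
open Pool.Agent.H89.NV (PrI np idS ni Dis Fnd Rs CK em tp TrK prp GW
  T_UNF T_AUT T_PRO T_SM2 T_FM1 T_NFD T_CRR T_CNT T_PUN)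

/-- the relative norm of an ideal along an embedding -/
noncomputable def nrm {K F : Type} [Field K] [NumberField K] [Field F] [NumberField F]
    (i : K →+* F) (A : Ideal (𝓞 F)) : Ideal (𝓞 K) :=
  letI : Algebra K F := i.toAlgebra
  Ideal.relNorm (𝓞 K) A

/-- Mackey's criterion for the irreducibility of the representation of the Galois group over `ℚ`
induced by the class group character `ψ` of `K` -/
def Mackey (K : Type) [Field K] [NumberField K] (ψ : ClassGroup (𝓞 K) →* ℂˣ) : Prop :=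
  ∀ (F : Type) [Field F] [NumberField F] (i j : K →+* F), i ≠ j →
    Subfield.closure (Set.range i ∪ Set.range j) = ⊤ →
    ∃ (A : (Ideal (𝓞 F))⁰) (I J : (Ideal (𝓞 K))⁰), (I : Ideal (𝓞 K)) = nrm i A ∧
      (J : Ideal (𝓞 K)) = nrm j A ∧ ψ (ClassGroup.mk0 I) ≠ ψ (ClassGroup.mk0 J)

/-- the exceptional `D` -/
def exc (k : Type) [Field k] [NumberField k] (D : 𝓞 k) : Prop :=
  ∃ σ τ : k →+* ℂ, σ ≠ τ ∧ ∃ m ∈ Subfield.closure (Set.range σ ∪ Set.range τ),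
    σ (D : k) * τ (D : k) = m ^ 2

/-- the proportion of the characters of exponent `N` among the characters trivial on `k` -/
noncomputable def rcN (k : Type) [Field k] [NumberField k] (N : ℕ) (K : Type) [Field K]
    [NumberField K] [Algebra k K] : ℝ :=
  (Nat.card {ψ : ClassGroup (𝓞 K) →* ℂˣ // TrK k K ψ ∧ ψ ^ N = 1} : ℝ) /
    Nat.card {ψ : ClassGroup (𝓞 K) →* ℂˣ // TrK k K ψ}

/-- the proportion in the theorem -/
noncomputable def prM (k : Type) [Field k] [NumberField k] (K : Type) [Field K] [NumberField K]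
    [Algebra k K] : ℝ :=
  (Nat.card {ψ : ClassGroup (𝓞 K) →* ℂˣ // TrK k K ψ ∧ Mackey K ψ ∧ NVE K ψ} : ℝ) /
    Nat.card {ψ : ClassGroup (𝓞 K) →* ℂˣ // TrK k K ψ}

/-- the exponent of the characters which are left out -/
noncomputable def Nx (k : Type) [Field k] [NumberField k] : ℕ := 2 * (2 * dg k).factorial

/-! ### Irreducibility -/

/-- (NRM) the relative norm along an embedding. -/
def T_NRM : Prop :=
  ∀ (K F : Type) [Field K] [NumberField K] [Field F] [NumberField F] (i : K →+* F),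
    (∀ A : Ideal (𝓞 F), A ≠ ⊥ → nrm i A ≠ ⊥) ∧
    (∀ (e : F ≃+* F) (A : Ideal (𝓞 F)), nrm ((e : F →+* F).comp i)
      (A.map (RingOfIntegers.mapRingHom (e : F →+* F))) = nrm i A) ∧
    ∀ (c : K ≃+* K) (A : Ideal (𝓞 F)), (nrm (i.comp (c : K →+* K)) A).map
      (RingOfIntegers.mapRingHom (c : K →+* K)) = nrm i A

/-- (NRD) the norm of an extended ideal. -/
def T_NRD : Prop :=
  ∀ (K F : Type) [Field K] [NumberField K] [Field F] [NumberField F] (i j : K →+* F),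
    Subfield.closure (Set.range i ∪ Set.range j) = ⊤ → ∃ m : ℕ, 1 ≤ m ∧
      m ≤ Module.finrank ℚ K ∧ ∀ I : Ideal (𝓞 K), nrm i (I.map (RingOfIntegers.mapRingHom i)) = I ^ m

/-- (CJX) the conjugation. -/
def T_CJX : Prop :=
  ∀ (k K : Type) [Field k] [NumberField k] [IsTotallyReal k] [Field K] [NumberField K]
    [Algebra k K] (D : 𝓞 k) (h : CK D K), ∃ c : K ≃ₐ[k] K, c h.s = -h.s ∧ (∀ x, c (c x) = x) ∧
      ∀ ψ : ClassGroup (𝓞 K) →* ℂˣ, TrK k K ψ → ∀ I J : (Ideal (𝓞 K))⁰,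
        (J : Ideal (𝓞 K)) = (I : Ideal (𝓞 K)).map (RingOfIntegers.mapRingHom (c : K →+* K)) →
        ψ (ClassGroup.mk0 J) = (ψ (ClassGroup.mk0 I))⁻¹

/-- (EMJ) two embeddings. -/
def T_EMJ : Prop :=
  ∀ (k K : Type) [Field k] [NumberField k] [IsTotallyReal k] [Field K] [NumberField K]
    [Algebra k K] (D : 𝓞 k) (h : CK D K), tp D → ¬ exc k D → ∀ (c : K ≃ₐ[k] K),
    c h.s = -h.s → ∀ (F : Type) [Field F] [NumberField F] (i j : K →+* F), i ≠ j →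
    Subfield.closure (Set.range i ∪ Set.range j) = ⊤ →
    (∀ x, j x = i (c x)) ∨
      ∃ τ : F ≃+* F, (∀ x, τ (j x) = j x) ∧ ∀ x, τ (i x) = i (c x)

/-- (MCK) irreducibility over `ℚ`. -/
def T_MCK : Prop :=
  ∀ (k K : Type) [Field k] [NumberField k] [IsTotallyReal k] [Field K] [NumberField K]
    [Algebra k K] (D : 𝓞 k) (_ : CK D K), tp D → ¬ exc k D →
    ∀ ψ : ClassGroup (𝓞 K) →* ℂˣ, TrK k K ψ → ψ ^ Nx k ≠ 1 → Mackey K ψ

/-! ### The characters of small order -/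

/-- (CHN) the number of the characters of exponent `N` of a finite abelian group. -/
def T_CHN : Prop :=
  ∀ (G : Type) [CommGroup G] [Finite G] (x : G) (N J : ℕ),
    (∀ j : ℕ, 1 ≤ j → j ≤ J → x ^ (N * j) ≠ 1) →
    (J + 1) * Nat.card {ψ : G →* ℂˣ // ψ ^ N = 1} ≤ Nat.card G

/-- (ORN) few characters of exponent `N` if there is a small split prime. -/
def T_ORN : Prop :=
  ∀ (k K : Type) [Field k] [NumberField k] [IsTotallyReal k] [Field K] [NumberField K]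
    [Algebra k K] [Algebra.IsQuadraticExtension k K] (f : Ideal (𝓞 k)) (D b : 𝓞 k) (δ : K),
    KD f D b δ → ∀ P : PrI k, (2 : 𝓞 k) ∉ P.1 → spl f P D → ∀ N J : ℕ, 1 ≤ N →
    4 ^ dg k * (dk k : ℝ) ^ 2 * np P ^ (N * J) < |(discr K : ℝ)| → (J + 1) * rcN k N K ≤ 1

/-- (PFN) this proportion as a function of the discriminant, and the exceptional fields. -/
def T_PFN : Prop :=
  ∀ (k : Type) [Field k] [NumberField k] [IsTotallyReal k] (N : ℕ), ∃ τ ρ : 𝓞 k → ℝ,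
    (∀ D, 0 ≤ τ D ∧ τ D ≤ 1 ∧ 0 ≤ ρ D ∧ ρ D ≤ 1 ∧ (ρ D ≠ 0 → exc k D) ∧
      (ρ D ≠ 1 → ¬ exc k D)) ∧
    ∀ (D D' : 𝓞 k) (K : Type) [Field K] [NumberField K] [Algebra k K] (_ : CK D K)
      (_ : CK D' K), rcN k N K = τ D ∧ ρ D = ρ D'

open Classical in
/-- (TAN) few characters are of exponent `N`, in the mean. -/
def T_TAN : Prop :=
  ∀ (k : Type) [Field k] [NumberField k] [IsTotallyReal k], T_CNT k →
    ∀ Ψ : (Pl k → ℝ) → ℝ, PU k Ψ → ∀ C : ℝ, (∃ X₀ : ℝ, ∀ X : ℝ, X₀ ≤ X →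
      ∑' x : ClassGroup (𝓞 k) × 𝓞 k, (if dsz k (ci x.1) x.2 ≤ X then mul k Ψ x else 0) ≤ C * X) →
    ∀ (N : ℕ) (τ : 𝓞 k → ℝ), 1 ≤ N → (∀ D, 0 ≤ τ D ∧ τ D ≤ 1) →
      (∀ (D : 𝓞 k) (K : Type) [Field K] [NumberField K] [Algebra k K] (_ : CK D K),
        rcN k N K = τ D) → ∀ ε : ℝ, 0 < ε →
    ∃ X₀ : ℝ, ∀ X : ℝ, X₀ ≤ X → ∑' x : ClassGroup (𝓞 k) × 𝓞 k,
      (if dsz k (ci x.1) x.2 ≤ X then mul k Ψ x * τ x.2 else 0) ≤ ε * X

/-! ### The exceptional fields -/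

/-- (DG1) there are infinitely many primes of degree one. -/
def T_DG1 : Prop :=
  ∀ (M : Type) [Field M] [NumberField M],
    {p : Ideal (𝓞 M) | p.IsPrime ∧ (Ideal.absNorm p).Prime}.Infinite

/-- the primes `P.1`, `P.2` have different splitting -/
def evt {k : Type} [Field k] [NumberField k] (f : Ideal (𝓞 k)) (P : PrI k × PrI k)
    (D : 𝓞 k) : Prop :=
  spl f P.1 D ∧ ¬ spl f P.2 D ∧ D ∉ P.2.1 * f ^ 2

/-- the pairs are odd and without common elements -/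
def Prs {k : Type} [Field k] [NumberField k] (Q : Finset (PrI k × PrI k)) : Prop :=
  (∀ P ∈ Q, P.1 ≠ P.2 ∧ (2 : 𝓞 k) ∉ P.1.1 ∧ (2 : 𝓞 k) ∉ P.2.1) ∧
    ∀ P ∈ Q, ∀ P' ∈ Q, P ≠ P' → P.1 ≠ P'.1 ∧ P.1 ≠ P'.2 ∧ P.2 ≠ P'.1 ∧ P.2 ≠ P'.2

/-- (EPP) the pairs of primes for a pair of embeddings. -/
def T_EPP : Prop :=
  ∀ (k : Type) [Field k] [NumberField k] (σ τ : k →+* ℂ), σ ≠ τ → ∀ m : ℕ,
    ∃ Q : Finset (PrI k × PrI k), Q.card = m ∧ Prs Q ∧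
      ∀ (f : Ideal (𝓞 k)) (D : 𝓞 k), f ≠ ⊥ → D ≠ 0 → D ∈ f ^ 2 →
        (∃ m ∈ Subfield.closure (Set.range σ ∪ Set.range τ), σ (D : k) * τ (D : k) = m ^ 2) →
        ∀ P ∈ Q, ¬ evt f P D

open Classical in
/-- (NSE) the density of the discriminants without such pairs. -/
def T_NSE : Prop :=
  ∀ (k : Type) [Field k] [NumberField k] (f : Ideal (𝓞 k)) (Q : Finset (PrI k × PrI k)), f ≠ ⊥ →
    Prs Q → ∃ q : Ideal (𝓞 k), q ≠ ⊥ ∧
    (∀ P ∈ Q, ∀ (D : 𝓞 k), ∀ y ∈ q * f ^ 2, (evt f P (D + y) ↔ evt f P D)) ∧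
    (((Rs (q * f ^ 2)).filter (fun x => x ∈ f ^ 2 ∧ ∀ P ∈ Q, ¬ evt f P x)).card : ℝ) ≤
      (8 / 9) ^ Q.card * nm q

open Classical in
/-- (EXX) few exceptional discriminants, smooth weights. -/
def T_EXX : Prop :=
  ∀ (k : Type) [Field k] [NumberField k] [IsTotallyReal k], T_CNT k →
    ∀ Ψ : (Pl k → ℝ) → ℝ, PU k Ψ → ∀ w : ℝ → ℝ, SW w → ∀ ε : ℝ, 0 < ε →
    ∃ X₀ : ℝ, ∀ X : ℝ, X₀ ≤ X →
      ∑' x : ClassGroup (𝓞 k) × 𝓞 k, (if exc k x.2 then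
        mul k Ψ x * w (dsz k (ci x.1) x.2 / X) else 0) ≤ ε * X

open Classical in
/-- (EXS) few exceptional discriminants. -/
def T_EXS : Prop :=
  ∀ (k : Type) [Field k] [NumberField k] [IsTotallyReal k], T_CNT k →
    ∀ Ψ : (Pl k → ℝ) → ℝ, PU k Ψ → ∀ C : ℝ, (∃ X₀ : ℝ, ∀ X : ℝ, X₀ ≤ X →
      ∑' x : ClassGroup (𝓞 k) × 𝓞 k, (if dsz k (ci x.1) x.2 ≤ X then mul k Ψ x else 0) ≤ C * X) →
    ∀ ε : ℝ, 0 < ε → ∃ X₀ : ℝ, ∀ X : ℝ, X₀ ≤ X → ∑' x : ClassGroup (𝓞 k) × 𝓞 k,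
      (if dsz k (ci x.1) x.2 ≤ X ∧ exc k x.2 then mul k Ψ x else 0) ≤ ε * X

/-! ### The theorem -/

/-- (PRM) the proportions. -/
def T_PRM : Prop :=
  ∀ (k K : Type) [Field k] [NumberField k] [IsTotallyReal k] [Field K] [NumberField K]
    [Algebra k K] (D : 𝓞 k) (_ : CK D K), tp D →
    (0 ≤ prM k K ∧ (¬ exc k D → prp k K - rcN k (Nx k) K ≤ prM k K)) ∧ prp k K ≤ 1

/-- (FN2) the theorem, with irreducibility over `ℚ`. -/
def T_FN2 : Prop :=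
  ∀ (k : Type) [Field k] [NumberField k] [IsTotallyReal k],
    (∀ X : ℝ, ∃ (n : ℕ) (K : Fin n → Type) (_ : ∀ i, Field (K i)) (_ : ∀ i, NumberField (K i))
      (_ : ∀ i, Algebra k (K i)), CL k X (Fin n) K) ∧
    (∃ c C X₀ : ℝ, 0 < c ∧ 0 < C ∧ ∀ X : ℝ, X₀ ≤ X → ∀ (ι : Type) [Fintype ι] (K : ι → Type)
      [∀ i, Field (K i)] [∀ i, NumberField (K i)] [∀ i, Algebra k (K i)], CL k X ι K →
      c * X ≤ Fintype.card ι ∧ Fintype.card ι ≤ C * X) ∧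
    ∀ ε : ℝ, 0 < ε → ∃ X₀ : ℝ, ∀ X : ℝ, X₀ ≤ X → ∀ (ι : Type) [Fintype ι] (K : ι → Type)
      [∀ i, Field (K i)] [∀ i, NumberField (K i)] [∀ i, Algebra k (K i)], CL k X ι K →
      (19 / 27 - ε) * Fintype.card ι ≤ ∑ i, prM k (K i)

/-- (FNB) the assembly. -/
def T_FNB : Prop :=
  (∀ (k : Type) [Field k] [NumberField k] [IsTotallyReal k], T_UNF k ∧ T_AUT k ∧ T_PRO k ∧
    T_SM2 k ∧ T_FM1 k ∧ T_NFD k ∧ T_CRR k ∧ T_CNT k ∧ T_PUN k) → T_FN2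

end Pool.Agent.H95.NV
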